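import Pool.Agent.V7H97.LF.Geo

/-!
# One-point upper tails cannot be too thin
-/

set_option autoImplicit false

open MeasureTheory ProbabilityTheory Filter Set

namespace Pool.Agent.V7H97.LF

open Pool.Agent.N662.FP Pool.Agent.V7H97.FO

/-- the lattice point nearest to `t • u` -/
noncomputable def vv (u : ℝ × ℝ) (t : ℝ) : ℤ × ℤ := (round (t * u.1), round (t * u.2))

theorem vv_near (u : ℝ × ℝ) (t : ℝ) : |(em (vv u t) - t • u).1| ≤ 1 / 2 ∧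
    |(em (vv u t) - t • u).2| ≤ 1 / 2 := by
  constructor
  · have := abs_sub_round (t * u.1)
    rw [abs_sub_comm] at this
    exact this
  · have := abs_sub_round (t * u.2)
    rw [abs_sub_comm] at this
    exact this

/-! ### inequalities -/

theorem r1 (m Cn t κ κ0 : ℝ) (hm0 : 0 ≤ m) (hm : m ≤ t + Cn) (hCn : 0 < Cn) (ht : 1 < t)
    (hκ0 : 0 < κ0) (hκκ : κ0 < κ) (hκ1 : κ < 1) :
    (1 + m) ^ (1 - κ) ≤ (2 + Cn) * t ^ (1 - κ0) := by
  have ht0 : 0 < t := by linarith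
  have h2 : 1 + m ≤ (2 + Cn) * t := by
    have : Cn * 1 ≤ Cn * t := mul_le_mul_of_nonneg_left ht.le hCn.le
    linarith
  calc (1 + m) ^ (1 - κ) ≤ ((2 + Cn) * t) ^ (1 - κ) :=
        Real.rpow_le_rpow (by linarith) h2 (by linarith)
    _ = (2 + Cn) ^ (1 - κ) * t ^ (1 - κ) := Real.mul_rpow (by linarith) ht0.le
    _ ≤ (2 + Cn) ^ (1 : ℝ) * t ^ (1 - κ0) := by
        have g1 : (2 + Cn) ^ (1 - κ) ≤ (2 + Cn) ^ (1 : ℝ) :=
          Real.rpow_le_rpow_of_exponent_le (by linarith) (by linarith)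
        have g2 : t ^ (1 - κ) ≤ t ^ (1 - κ0) :=
          Real.rpow_le_rpow_of_exponent_le ht.le (by linarith)
        gcongr
    _ = (2 + Cn) * t ^ (1 - κ0) := by rw [Real.rpow_one]

theorem r2 (k M R0 y t c1 c2 : ℝ) (hk2 : k ≤ 4 * ((R0 + 2) * y) + 1) (_hk0 : 0 ≤ k)
    (hM2 : M ≤ (R0 + 2) * t + 1) (hM0 : 0 ≤ M) (hR0 : 0 < R0) (hy1 : 1 ≤ y) (ht : 1 < t)
    (h1 : c1 ≤ c2 * 4) (h2 : c2 ≤ (2 * k + 1) * (2 * M + 1)) :
    c1 ≤ 4 * ((8 * (R0 + 2) + 3) * (2 * R0 + 7)) * (y * t) := by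
  have h3 : 2 * k + 1 ≤ (8 * (R0 + 2) + 3) * y := by linarith
  have h4 : 2 * M + 1 ≤ (2 * R0 + 7) * t := by linarith
  have h6 : (2 * k + 1) * (2 * M + 1) ≤ ((8 * (R0 + 2) + 3) * y) * ((2 * R0 + 7) * t) :=
    mul_le_mul h3 h4 (by linarith) (by positivity)
  calc _ ≤ c2 * 4 := h1
    _ ≤ (((8 * (R0 + 2) + 3) * y) * ((2 * R0 + 7) * t)) * 4 := by linarith
    _ = _ := by ring

theorem r3 (E R0 t H : ℝ) (hE : E ≤ t * R0 + 1) (hR0 : 0 < R0) (hH0 : 0 < H) (hHt : H < t)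
    (ht : 1 < t) : 2 * E * H + H ^ 2 ≤ 4 * ((R0 + 2) ^ 2 * (t * H)) := by
  have g1 : E * H ≤ (t * R0 + t) * H := mul_le_mul_of_nonneg_right (by linarith) hH0.le
  have g2 : H * H ≤ t * H := mul_le_mul_of_nonneg_right hHt.le hH0.le
  have g3 : 0 < t * H := by positivity
  have g4 : 0 < R0 * (t * H) := by positivity
  have g5 : 0 < R0 ^ 2 * (t * H) := by positivity
  have e1 : 4 * ((R0 + 2) ^ 2 * (t * H)) =
      4 * (R0 ^ 2 * (t * H)) + 16 * (R0 * (t * H)) + 16 * (t * H) := by ring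
  have e2 : 2 * E * H + H ^ 2 = 2 * (E * H) + H * H := by ring
  have e3 : (t * R0 + t) * H = R0 * (t * H) + t * H := by ring
  rw [e1, e2]
  linarith

theorem r4 (x y m R0 Cn t : ℝ) (h4 : x ≤ Cn * ((R0 + 4) * t)) (h5 : y ≤ m + x)
    (hm : m ≤ t + Cn) (hCn : 0 < Cn) (ht : 1 < t) :
    x ≤ (1 + Cn * (R0 + 5)) * t ∧ y ≤ (1 + Cn * (R0 + 5)) * t := by
  have h6 : Cn * 1 ≤ Cn * t := mul_le_mul_of_nonneg_left ht.le hCn.le
  have e1 : (1 + Cn * (R0 + 5)) * t = t + Cn * t + Cn * ((R0 + 4) * t) := by ring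
  rw [e1]
  constructor <;> linarith

theorem r5 (a m B Cn s K1 t H δ D0 : ℝ) (hap : a ≤ m + B * (2 + Cn) * s)
    (hm2 : t - Cn ≤ m) (h1 : m - K1 * s ≤ D0) (hs1 : 1 ≤ s) (hCn : 0 < Cn)
    (q2 : 2 * (2 * Cn + K1 + B * (2 + Cn)) * s ≤ H) (q3 : 2 * (Cn + K1) * s ≤ t)
    (hδ0 : 0 < δ) (hδt : δ * t = H) : a ≤ (1 + δ) * D0 := by
  have h0 : Cn * 1 ≤ Cn * s := mul_le_mul_of_nonneg_left hs1 hCn.le
  have h2 : t - Cn - K1 * s ≤ D0 := by linarith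
  have h3 : t / 2 ≤ t - Cn - K1 * s := by linarith
  have h4 : δ * (t / 2) ≤ δ * D0 := mul_le_mul_of_nonneg_left (by linarith) hδ0.le
  have h5 : δ * (t / 2) = H / 2 := by rw [← hδt]; ring
  have e1 : (1 + δ) * D0 = D0 + δ * D0 := by ring
  rw [e1]
  linarith

theorem r6 (a m B Cn s K1 t H R0 D1 E w1 w2 p : ℝ) (hap : a ≤ m + B * (2 + Cn) * s)
    (hm1 : m ≤ t + Cn) (hs1 : 1 ≤ s) (hCn : 0 < Cn) (hR0 : 0 < R0)
    (q1 : R0 * (1 / R0 + 2 * K1 + Cn + B * (2 + Cn)) * s ≤ H)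
    (he2 : t * R0 - 1 ≤ E) (hfar : E + H ≤ p) (hp : p ≤ R0 * w1 + R0 * w2)
    (hD : w1 + w2 - 2 * (K1 * s) ≤ D1) : a ≤ D1 := by
  have g7 : R0 * (w1 + w2 - 2 * (K1 * s)) ≤ R0 * D1 := mul_le_mul_of_nonneg_left hD hR0.le
  have g8 : R0 * a ≤ R0 * (t + Cn + B * (2 + Cn) * s) :=
    mul_le_mul_of_nonneg_left (by linarith) hR0.le
  have g9 : R0 * (1 / R0 + 2 * K1 + Cn + B * (2 + Cn)) * s =
      s + R0 * (2 * (K1 * s)) + R0 * Cn * s + R0 * (B * (2 + Cn) * s) := by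
    field_simp
  have g10 : R0 * Cn * 1 ≤ R0 * Cn * s :=
    mul_le_mul_of_nonneg_left hs1 (by positivity)
  have e1 : R0 * (t + Cn + B * (2 + Cn) * s) =
      t * R0 + R0 * Cn + R0 * (B * (2 + Cn) * s) := by ring
  have e2 : R0 * (w1 + w2 - 2 * (K1 * s)) = R0 * w1 + R0 * w2 - R0 * (2 * (K1 * s)) := by ring
  have g6 : R0 * a ≤ R0 * D1 := by linarith
  exact le_of_mul_le_mul_left g6 hR0

/-- the law of the passage time near the point `t u` -/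
theorem r7 (μ : Seminorm ℝ (ℝ × ℝ)) (Cn : ℝ) (hCn : 0 < Cn)
    (hnorm : ∀ x : ℝ × ℝ, μ x ≤ Cn * max |x.1| |x.2|)
    (u : ℝ × ℝ) (hu1 : μ u = 1) (R0 : ℝ) (hR : R0 = eu u) (t : ℝ) (ht0 : 0 < t) (v : ℤ × ℤ)
    (hv : v = vv u t) : μ (em v) ≤ t + Cn ∧ t - Cn ≤ μ (em v) ∧ eu (em v) ≤ t * R0 + 1 ∧
      t * R0 - 1 ≤ eu (em v) := by
  have hn1 : μ (em v - t • u) ≤ Cn := by
    refine (hnorm _).trans ?_
    have h1 := vv_near u t
    rw [← hv] at h1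
    have h2 : max |(em v - t • u).1| |(em v - t • u).2| ≤ 1 / 2 := max_le h1.1 h1.2
    have h3 : Cn * max |(em v - t • u).1| |(em v - t • u).2| ≤ Cn * (1 / 2) := by gcongr
    linarith
  have hn2 : eu (em v - t • u) ≤ 1 := by
    have h1 := vv_near u t
    rw [← hv] at h1
    have := eu_le (em v - t • u)
    linarith [h1.1, h1.2]
  have htu : μ (t • u) = t := by
    rw [map_smul_eq_mul, hu1, mul_one, Real.norm_eq_abs, abs_of_pos ht0]
  have hteu : eu (t • u) = t * R0 := by rw [eu_smul, abs_of_pos ht0, hR]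
  refine ⟨?_, ?_, ?_, ?_⟩
  · have : em v = (em v - t • u) + t • u := by abel
    have h1 : μ (em v) ≤ μ (em v - t • u) + μ (t • u) := by
      conv_lhs => rw [this]
      exact map_add_le_add μ _ _
    linarith
  · have : t • u = em v - (em v - t • u) := by abel
    have h1 : μ (t • u) ≤ μ (em v) + μ (em v - t • u) := by
      conv_lhs => rw [this]
      exact map_sub_le_add μ _ _
    linarith
  · have : em v = (em v - t • u) + t • u := by abel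
    have h1 : eu (em v) ≤ eu (em v - t • u) + eu (t • u) := by
      conv_lhs => rw [this]
      exact eu_add _ _
    linarith
  · have h3 : eu (-(em v - t • u)) = eu (em v - t • u) := by
      have := eu_smul (-1) (em v - t • u)
      rw [neg_one_smul] at this
      rw [this]; simp
    have : t • u = em v + -(em v - t • u) := by abel
    have h1 : eu (t • u) ≤ eu (em v) + eu (-(em v - t • u)) := by
      conv_lhs => rw [this]
      exact eu_add _ _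
    linarith

/-- the number of edges against the tilt -/
theorem r8 (H h t δ c C : ℝ) (ht0 : 0 < t) (hH : H = t ^ h) (hδ : δ = H / t)
    (hc : c ≤ C * t ^ ((3 + h) / 2)) (q4 : 17 * C * t ^ ((3 + h) / 2) ≤ t ^ (2 - 2 * h)) :
    δ ^ 2 * c ≤ 1 / 17 := by
  have h1 : δ ^ 2 * t ^ (2 - 2 * h) = 1 := by
    have : δ ^ 2 = t ^ (2 * h - 2) := by
      rw [hδ, hH, div_pow, ← Real.rpow_natCast (t ^ h) 2, ← Real.rpow_mul ht0.le,
        ← Real.rpow_natCast t 2, ← Real.rpow_sub ht0]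
      congr 1; push_cast; ring
    rw [this, ← Real.rpow_add ht0]
    have : 2 * h - 2 + (2 - 2 * h) = 0 := by ring
    rw [this, Real.rpow_zero]
  have h2 : 17 * c ≤ t ^ (2 - 2 * h) := by
    refine le_trans ?_ q4
    linarith
  have h3 : δ ^ 2 * (17 * c) ≤ δ ^ 2 * t ^ (2 - 2 * h) := by gcongr
  linarith

theorem em_zero : em (0 : ℤ × ℤ) = 0 := by simp [Pool.Agent.N662.FP.em]

theorem eu_zero : eu (0 : ℝ × ℝ) = 0 := by
  have := eu_le 0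
  simp at this
  exact le_antisymm this (eu_nonneg _)

section
variable {Ω : Type} [MeasureSpace Ω] [IsProbabilityMeasure (volume : Measure Ω)]
variable {X : Sym2 (ℤ × ℤ) → Ω → ℝ}

theorem low_box (hX : Iid X) {μ : Seminorm ℝ (ℝ × ℝ)} (K1 κ0 c0 N0 n : ℝ) (hK : 1 ≤ K1)
    (h0 : 0 ≤ κ0) (h1 : κ0 < 1) (hn : 0 < n) (hc0 : 0 < c0)
    (hLS : ∀ v : ℤ × ℤ, N0 ≤ μ (em v) →
      (volume : Measure Ω).real {ω | D (env X ω) 0 v < μ (em v) - μ (em v) ^ (1 - κ0)} ≤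
        Real.exp (-(μ (em v) ^ c0)))
    (hN : N0 ≤ n ^ (1 - κ0)) (v : ℤ × ℤ) (R : ℕ)
    (hb : ∀ z ∈ Bx R, μ (em z) ≤ K1 * n ∧ μ (em (v - z)) ≤ K1 * n) :
    (volume : Measure Ω).real {ω | ∃ z ∈ Bx R, D (env X ω) 0 z < μ (em z) - K1 * n ^ (1 - κ0) ∨
      D (env X ω) z v < μ (em (v - z)) - K1 * n ^ (1 - κ0)} ≤
      2 * (2 * (R : ℝ) + 1) ^ 2 * Real.exp (-((n ^ (1 - κ0)) ^ c0)) := by
  have e : {ω | ∃ z ∈ Bx R, D (env X ω) 0 z < μ (em z) - K1 * n ^ (1 - κ0) ∨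
      D (env X ω) z v < μ (em (v - z)) - K1 * n ^ (1 - κ0)} ⊆
      (⋃ z ∈ Bx R, {ω | D (env X ω) 0 z < μ (em z) - K1 * n ^ (1 - κ0)}) ∪
      (⋃ z ∈ Bx R, {ω | D (env X ω) z v < μ (em (v - z)) - K1 * n ^ (1 - κ0)}) := by
    rintro ω ⟨z, hz, h | h⟩
    · exact Or.inl (mem_iUnion₂.2 ⟨z, hz, h⟩)
    · exact Or.inr (mem_iUnion₂.2 ⟨z, hz, h⟩)
  refine (measureReal_mono e (measure_ne_top _ _)).trans ((measureReal_union_le _ _).trans ?_)
  have p1 : (volume : Measure Ω).real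
      (⋃ z ∈ Bx R, {ω | D (env X ω) 0 z < μ (em z) - K1 * n ^ (1 - κ0)}) ≤
      (2 * (R : ℝ) + 1) ^ 2 * Real.exp (-((n ^ (1 - κ0)) ^ c0)) := by
    refine (measureReal_biUnion_finset_le _ _).trans ?_
    refine (Finset.sum_le_card_nsmul _ _ (Real.exp (-((n ^ (1 - κ0)) ^ c0))) fun z hz => ?_).trans ?_
    · exact low hX K1 κ0 c0 N0 n hK h0 h1 hn hc0 hLS hN z (hb z hz).1
    · rw [nsmul_eq_mul, card_Bx]
  have p2 : (volume : Measure Ω).real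
      (⋃ z ∈ Bx R, {ω | D (env X ω) z v < μ (em (v - z)) - K1 * n ^ (1 - κ0)}) ≤
      (2 * (R : ℝ) + 1) ^ 2 * Real.exp (-((n ^ (1 - κ0)) ^ c0)) := by
    refine (measureReal_biUnion_finset_le _ _).trans ?_
    refine (Finset.sum_le_card_nsmul _ _ (Real.exp (-((n ^ (1 - κ0)) ^ c0))) fun z hz => ?_).trans ?_
    · rw [law_lt hX]
      exact low hX K1 κ0 c0 N0 n hK h0 h1 hn hc0 hLS hN (v - z) (hb z hz).2
    · rw [nsmul_eq_mul, card_Bx]
  linarith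

/-- the set of environments with a small passage time -/
theorem mG (v : ℤ × ℤ) (a : ℝ) :
    MeasurableSet {x : Sym2 (ℤ × ℤ) → ℝ | D (fun e => max (x e) 0) 0 v < a} :=
  (cME 0 v) measurableSet_Iio

theorem max_self (x : Sym2 (ℤ × ℤ) → ℝ) (hx : ∀ e, 0 ≤ x e) : (fun e => max (x e) 0) = x := by
  funext e
  exact max_eq_left (hx e)

/-- the comparison of the two laws for the event of a small passage time -/
theorem swap (hX : Iid X) (δ : ℝ) (h0 : 0 ≤ δ) (h1 : δ < 1) (S : Finset (ℤ × ℤ))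
    (hF : δ ^ 2 * ((nb S).card : ℝ) ≤ 1 / 17) (v : ℤ × ℤ) (a : ℝ) (E : Set Ω)
    (hE : (volume : Measure Ω).real E ≤ 1 / 4)
    (hincl : ∀ ω, (∀ e, 0 ≤ env X ω e) → ω ∉ E → a ≤ D (sc (nb S) (1 + δ) (env X ω)) 0 v) :
    (volume : Measure Ω).real {ω | D (env X ω) 0 v < a} ≤ 1 / 2 := by
  have c1 := cmp hX.meas hX.ind hX.law δ h0 h1 (nb S) hF _ (mG v a)
  have hae := cAE Ω X hX
  have e1 : (volume : Measure Ω).real {ω | D (env X ω) 0 v < a} ≤ (volume : Measure Ω).real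
      {ω | (fun i => X i ω) ∈ {x : Sym2 (ℤ × ℤ) → ℝ | D (fun e => max (x e) 0) 0 v < a}} := by
    rw [measureReal_def, measureReal_def]
    refine ENNReal.toReal_mono (measure_ne_top _ _) (measure_mono_ae ?_)
    filter_upwards [hae] with ω hω h
    show D (fun e => max (X e ω) 0) 0 v < a
    have : (fun e => max (X e ω) 0) = env X ω := max_self (env X ω) hω
    rw [this]
    exact h
  have e2 : (volume : Measure Ω).real {ω | sc (nb S) (1 + δ) (fun i => X i ω) ∈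
      {x : Sym2 (ℤ × ℤ) → ℝ | D (fun e => max (x e) 0) 0 v < a}} ≤ (volume : Measure Ω).real E := by
    rw [measureReal_def, measureReal_def]
    refine ENNReal.toReal_mono (measure_ne_top _ _) (measure_mono_ae ?_)
    filter_upwards [hae] with ω hω h
    by_contra hne
    have h3 := hincl ω hω hne
    have h4 : D (fun e => max (sc (nb S) (1 + δ) (fun i => X i ω) e) 0) 0 v < a := h
    have hy : ∀ e, 0 ≤ sc (nb S) (1 + δ) (env X ω) e := by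
      intro e
      by_cases he : e ∈ nb S
      · rw [sc_in _ _ _ he]
        exact mul_nonneg (by linarith) (hω e)
      · rw [sc_out _ _ _ he]
        exact hω e
    have h5 : (fun e => max (sc (nb S) (1 + δ) (fun i => X i ω) e) 0) =
        sc (nb S) (1 + δ) (env X ω) := max_self _ hy
    rw [h5] at h4
    linarith
  linarith

/-- a level above which the passage time lies with small probability -/
theorem lvl {μ : Seminorm ℝ (ℝ × ℝ)}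
    (hG : Good (fun ω v => D (env X ω) 0 v) μ) (v : ℤ × ℤ) (r d : ℝ) (hr : 0 < r) (hd : 0 < d)
    (h : (volume : Measure Ω).real {ω | μ (em v) + r ≤ D (env X ω) 0 v} ≤ Real.exp (-(1 + d))) :
    3 / 4 ≤ (volume : Measure Ω).real {ω | D (env X ω) 0 v < μ (em v) + (1 + 2 / d) * r} := by
  have h1 := (hG.one v r d hr hd h).1 (2 / d * r) (by positivity)
  have e1 : -(1 + d + d * (2 / d * r) / r) = -(3 + d) := by
    field_simp
    ring
  rw [e1] at h1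
  have h2 : Real.exp (-(3 + d)) ≤ 1 / 4 := by
    rw [Real.exp_neg, inv_le_comm₀ (Real.exp_pos _) (by norm_num)]
    have := Real.add_one_le_exp (3 + d)
    norm_num
    linarith
  have e2 : μ (em v) + r + 2 / d * r = μ (em v) + (1 + 2 / d) * r := by ring
  rw [e2] at h1
  have h3 : (volume : Measure Ω).real univ ≤
      (volume : Measure Ω).real {ω | D (env X ω) 0 v < μ (em v) + (1 + 2 / d) * r} +
      (volume : Measure Ω).real {ω | μ (em v) + (1 + 2 / d) * r ≤ D (env X ω) 0 v} := by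
    refine le_trans (measureReal_mono (fun ω _ => ?_) (measure_ne_top _ _))
      (measureReal_union_le _ _)
    rcases lt_or_ge (D (env X ω) 0 v) (μ (em v) + (1 + 2 / d) * r) with h | h
    · exact Or.inl h
    · exact Or.inr h
  have h4 : (volume : Measure Ω).real univ = 1 := by simp
  linarith

/-- the tube at one scale -/
theorem tube (R0 h t : ℝ) (hR0 : 0 < R0) (v : ℤ × ℤ) (hv0 : v ≠ 0)
    (he1 : eu (em v) ≤ t * R0 + 1) (ht : 1 < t) (hh0 : 0 < h) (hh1 : h < 1) (M : ℕ)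
    (hM : M = ⌈(R0 + 2) * t⌉₊) :
    ∃ S : Finset (ℤ × ℤ), (∀ w, w ∈ S ↔ w ∈ Bx M ∧ eu (em w) + eu (em v - em w) ≤
      eu (em v) + t ^ h) ∧
      ((nb S).card : ℝ) ≤ 4 * ((8 * (R0 + 2) + 3) * (2 * R0 + 7)) * t ^ ((3 + h) / 2) := by
  classical
  have ht0 : 0 < t := by linarith
  obtain ⟨H, hH⟩ : ∃ H, H = t ^ h := ⟨_, rfl⟩
  rw [← hH]
  have hH0 : 0 < H := by rw [hH]; positivity
  have hHt : H < t := by
    rw [hH]
    conv_rhs => rw [← Real.rpow_one t]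
    exact Real.rpow_lt_rpow_of_exponent_lt ht hh1
  have hM2 : (M : ℝ) ≤ (R0 + 2) * t + 1 := by
    have := Nat.ceil_lt_add_one (show 0 ≤ (R0 + 2) * t by positivity)
    rw [← hM] at this
    exact this.le
  obtain ⟨y, hy⟩ : ∃ y, y = t ^ ((1 + h) / 2) := ⟨_, rfl⟩
  have hy1 : 1 ≤ y := by rw [hy]; exact Real.one_le_rpow ht.le (by linarith)
  obtain ⟨b, hb⟩ : ∃ b, b = (R0 + 2) * y := ⟨_, rfl⟩
  have hb0 : 0 ≤ b := by rw [hb]; positivity
  obtain ⟨k, hk⟩ : ∃ k : ℕ, k = ⌈4 * b⌉₊ := ⟨_, rfl⟩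
  have hk1 : 4 * b ≤ k := by rw [hk]; exact Nat.le_ceil _
  have hk2 : (k : ℝ) ≤ 4 * b + 1 := by
    have := Nat.ceil_lt_add_one (show 0 ≤ 4 * b by positivity)
    rw [← hk] at this
    exact this.le
  obtain ⟨S, hS⟩ : ∃ S : Finset (ℤ × ℤ), S = (Bx M).filter
    (fun w => eu (em w) + eu (em v - em w) ≤ eu (em v) + H) := ⟨_, rfl⟩
  have hb2 : b ^ 2 = (R0 + 2) ^ 2 * (t * H) := by
    rw [hb, mul_pow, hy, ← Real.rpow_natCast (t ^ ((1 + h) / 2)) 2, ← Real.rpow_mul ht0.le]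
    have : (1 + h) / 2 * ((2 : ℕ) : ℝ) = 1 + h := by push_cast; ring
    rw [this, Real.rpow_add ht0, Real.rpow_one, hH]
  have hbb : 2 * eu (em v) * H + H ^ 2 ≤ 4 * b ^ 2 := by
    rw [hb2]
    exact r3 _ R0 t H he1 hR0 hH0 hHt ht
  have hSc : S.card ≤ (2 * k + 1) * (2 * M + 1) := by
    refine tube_card S v hv0 H b M k hb0 hbb hk1 fun w hw => ?_
    rw [hS] at hw
    obtain ⟨h1, h2⟩ := Finset.mem_filter.1 hw
    rw [mem_Bx] at h1
    exact ⟨h1.1, h1.2, h2⟩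
  refine ⟨S, fun w => by rw [hS, Finset.mem_filter], ?_⟩
  have h1 : ((nb S).card : ℝ) ≤ (S.card : ℝ) * 4 := by exact_mod_cast nb_card S
  have h2 : (S.card : ℝ) ≤ (2 * (k : ℝ) + 1) * (2 * (M : ℝ) + 1) := by exact_mod_cast hSc
  have h5 : t ^ ((3 + h) / 2) = y * t := by
    rw [hy]
    conv_rhs => rw [← Real.rpow_one t, ← Real.rpow_mul ht0.le, ← Real.rpow_add ht0]
    congr 1; ring
  rw [h5]
  rw [hb] at hk2
  exact r2 k M R0 y t _ _ hk2 (Nat.cast_nonneg k) hM2 (Nat.cast_nonneg M) hR0 hy1 ht h1 h2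

/-- the deterministic part at one scale -/
theorem incl (x : Sym2 (ℤ × ℤ) → ℝ) (hx : ∀ e, 0 ≤ x e) (μ : Seminorm ℝ (ℝ × ℝ)) (v : ℤ × ℤ)
    (Cn R0 t s H B K1 δ a : ℝ) (hCn : 0 < Cn) (hR0 : 0 < R0) (hu : ∀ x, eu x ≤ R0 * μ x)
    (ht : 1 < t) (hm1 : μ (em v) ≤ t + Cn) (hm2 : t - Cn ≤ μ (em v))
    (he1 : eu (em v) ≤ t * R0 + 1) (he2 : t * R0 - 1 ≤ eu (em v))
    (hap : a ≤ μ (em v) + B * (2 + Cn) * s) (hs1 : 1 ≤ s)
    (hH0 : 0 < H) (hHt : H < t)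
    (q1 : R0 * (1 / R0 + 2 * K1 + Cn + B * (2 + Cn)) * s ≤ H)
    (q2 : 2 * (2 * Cn + K1 + B * (2 + Cn)) * s ≤ H) (q3 : 2 * (Cn + K1) * s ≤ t)
    (hδ0 : 0 < δ) (hδt : δ * t = H) (M : ℕ) (hM1 : (R0 + 2) * t ≤ M)
    (S : Finset (ℤ × ℤ)) (hS : ∀ w, w ∈ S ↔ w ∈ Bx M ∧ eu (em w) + eu (em v - em w) ≤
      eu (em v) + H)
    (hnE : ∀ z ∈ Bx (M + 1), μ (em z) - K1 * s ≤ D x 0 z ∧ μ (em (v - z)) - K1 * s ≤ D x z v) :
    a ≤ D (sc (nb S) (1 + δ) x) 0 v := by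
  have hmax : eu (em v) + H ≤ M := by
    have : (R0 + 2) * t = t * R0 + t + t := by ring
    linarith
  refine det x hx S δ hδ0.le v a ?_ ?_ ?_
  · rw [hS]
    refine ⟨?_, ?_⟩
    · rw [mem_Bx]; simp
    · rw [em_zero, eu_zero, sub_zero]
      linarith
  · have hvB : v ∈ Bx (M + 1) := by
      rw [mem_Bx]
      have h1 : |(v.1 : ℝ)| ≤ eu (em v) := fst_le (em v)
      have h2 : |(v.2 : ℝ)| ≤ eu (em v) := snd_le (em v)
      have h3 : |(v.1 : ℝ)| ≤ ((M + 1 : ℕ) : ℝ) := by push_cast; linarith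
      have h4 : |(v.2 : ℝ)| ≤ ((M + 1 : ℕ) : ℝ) := by push_cast; linarith
      exact ⟨by exact_mod_cast h3, by exact_mod_cast h4⟩
    exact r5 a _ B Cn s K1 t H δ _ hap hm2 (hnE v hvB).1 hs1 hCn q2 q3 hδ0 hδt
  · intro w hw hz
    obtain ⟨z, hzS, hzw⟩ := hz
    have hzS' : z ∈ Bx M := ((hS z).1 hzS).1
    have hwB : w ∈ Bx (M + 1) := by
      rw [mem_Bx] at hzS' ⊢
      have g1 := abs_nonneg (w.1 - z.1)
      have g2 := abs_nonneg (w.2 - z.2)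
      have g3 : |w.1| ≤ |w.1 - z.1| + |z.1| := by
        have := abs_add_le (w.1 - z.1) z.1
        rwa [sub_add_cancel] at this
      have g4 : |w.2| ≤ |w.2 - z.2| + |z.2| := by
        have := abs_add_le (w.2 - z.2) z.2
        rwa [sub_add_cancel] at this
      push_cast
      constructor
      · linarith [hzS'.1]
      · linarith [hzS'.2]
    have hfar : eu (em v) + H ≤ eu (em w) + eu (em v - em w) := by
      by_contra hcon
      rw [not_le] at hcon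
      apply hw
      rw [hS]
      refine ⟨?_, hcon.le⟩
      rw [mem_Bx]
      have h1 : |(w.1 : ℝ)| ≤ eu (em w) := fst_le (em w)
      have h2 : |(w.2 : ℝ)| ≤ eu (em w) := snd_le (em w)
      have h5 := eu_nonneg (em v - em w)
      have h3 : |(w.1 : ℝ)| ≤ (M : ℝ) := by linarith
      have h4 : |(w.2 : ℝ)| ≤ (M : ℝ) := by linarith
      exact ⟨by exact_mod_cast h3, by exact_mod_cast h4⟩
    obtain ⟨g1, g2⟩ := hnE w hwB
    have g3 := hu (em w)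
    have g4 := hu (em v - em w)
    rw [em_sub] at g2
    exact r6 a _ B Cn s K1 t H R0 _ (eu (em v)) (μ (em w)) (μ (em v - em w)) _ hap hm1 hs1 hCn hR0
      q1 he2 hfar (by linarith) (by linarith)

/-- the statement at one scale -/
theorem scale (hX : Iid X) {μ : Seminorm ℝ (ℝ × ℝ)}
    (hG : Good (fun ω v => D (env X ω) 0 v) μ) (Cn : ℝ) (hCn : 0 < Cn)
    (hnorm : ∀ x : ℝ × ℝ, μ x ≤ Cn * max |x.1| |x.2|)
    (u : ℝ × ℝ) (hu1 : μ u = 1) (R0 : ℝ) (hR : R0 = eu u) (hR0 : 0 < R0)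
    (hu : ∀ x, eu x ≤ R0 * μ x)
    (κ κ0 A d c0 N0 h K1 t : ℝ) (hκ0 : 0 < κ0) (hκκ : κ0 < κ) (hκ1 : κ < 1) (hA : 0 < A)
    (hd : 0 < d) (hc0 : 0 < c0) (hh0 : 0 < h) (hh1 : h < 1)
    (hUP : ∀ v : ℤ × ℤ, (volume : Measure Ω).real
      {ω | μ (em v) + A * (1 + μ (em v)) ^ (1 - κ) ≤ D (env X ω) 0 v} ≤ Real.exp (-(1 + d)))
    (hLS : ∀ v : ℤ × ℤ, N0 ≤ μ (em v) →
      (volume : Measure Ω).real {ω | D (env X ω) 0 v < μ (em v) - μ (em v) ^ (1 - κ0)} ≤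
        Real.exp (-(μ (em v) ^ c0)))
    (hK1 : K1 = 1 + Cn * (R0 + 5)) (ht : 1 < t)
    (q0 : N0 ≤ t ^ (1 - κ0))
    (q1 : R0 * (1 / R0 + 2 * K1 + Cn + A * (1 + 2 / d) * (2 + Cn)) * t ^ (1 - κ0) ≤ t ^ h)
    (q2 : 2 * (2 * Cn + K1 + A * (1 + 2 / d) * (2 + Cn)) * t ^ (1 - κ0) ≤ t ^ h)
    (q3 : 2 * (Cn + K1) * t ^ (1 - κ0) ≤ t)
    (q4 : 17 * (4 * ((8 * (R0 + 2) + 3) * (2 * R0 + 7))) * t ^ ((3 + h) / 2) ≤ t ^ (2 - 2 * h))
    (q5 : 2 * (2 * R0 + 9) ^ 2 * t ^ 2 * Real.exp (-((t ^ (1 - κ0)) ^ c0)) ≤ 1 / 4) :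
    False := by
  classical
  have ht0 : 0 < t := by linarith
  obtain ⟨v, hv⟩ : ∃ v, v = vv u t := ⟨_, rfl⟩
  obtain ⟨hm1, hm2, he1, he2⟩ := r7 μ Cn hCn hnorm u hu1 R0 hR t ht0 v hv
  have hK1' : 1 ≤ K1 := by
    rw [hK1]
    have : 0 < Cn * (R0 + 5) := by positivity
    linarith
  have hs1 : 1 ≤ t ^ (1 - κ0) := Real.one_le_rpow ht.le (by linarith)
  have hv0 : v ≠ 0 := by
    rintro hv0
    have h1 : μ (em v) = 0 := by rw [hv0, em_zero, map_zero]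
    have h2 : (Cn + K1) * 1 ≤ (Cn + K1) * t ^ (1 - κ0) :=
      mul_le_mul_of_nonneg_left hs1 (by linarith)
    linarith
  obtain ⟨M, hM⟩ : ∃ M : ℕ, M = ⌈(R0 + 2) * t⌉₊ := ⟨_, rfl⟩
  have hM1 : (R0 + 2) * t ≤ M := by rw [hM]; exact Nat.le_ceil _
  have hM2 : (M : ℝ) ≤ (R0 + 2) * t + 1 := by
    have := Nat.ceil_lt_add_one (show 0 ≤ (R0 + 2) * t by positivity)
    rw [← hM] at this
    exact this.le
  obtain ⟨S, hS, hSc⟩ := tube R0 h t hR0 v hv0 he1 ht hh0 hh1 M hM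
  obtain ⟨H, hH⟩ : ∃ H, H = t ^ h := ⟨_, rfl⟩
  obtain ⟨δ, hδ⟩ : ∃ δ, δ = H / t := ⟨_, rfl⟩
  have hδF := r8 H h t δ _ _ ht0 hH hδ hSc q4
  have hH0 : 0 < H := by rw [hH]; positivity
  have hHt : H < t := by
    rw [hH]
    conv_rhs => rw [← Real.rpow_one t]
    exact Real.rpow_lt_rpow_of_exponent_lt ht hh1
  have hδ0 : 0 < δ := by rw [hδ]; positivity
  have hδ1 : δ < 1 := by rw [hδ, div_lt_one ht0]; exact hHt
  have hδt : δ * t = H := by rw [hδ]; field_simp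
  obtain ⟨s, hs⟩ : ∃ s, s = t ^ (1 - κ0) := ⟨_, rfl⟩
  obtain ⟨B, hB⟩ : ∃ B, B = A * (1 + 2 / d) := ⟨_, rfl⟩
  have hp := apply_nonneg μ (em v)
  have hr0 : 0 < A * (1 + μ (em v)) ^ (1 - κ) := by positivity
  obtain ⟨a, ha⟩ : ∃ a, a = μ (em v) + (1 + 2 / d) * (A * (1 + μ (em v)) ^ (1 - κ)) := ⟨_, rfl⟩
  have hap : a ≤ μ (em v) + B * (2 + Cn) * s := by
    have h1 := r1 (μ (em v)) Cn t κ κ0 hp hm1 hCn ht hκ0 hκκ hκ1
    rw [← hs] at h1
    rw [ha, hB]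
    have h4 : 0 < 1 + 2 / d := by positivity
    have h5 : (1 + 2 / d) * (A * (1 + μ (em v)) ^ (1 - κ)) ≤ (1 + 2 / d) * (A * ((2 + Cn) * s)) := by
      gcongr
    linarith
  have hlow := lvl hG v _ d hr0 hd (hUP v)
  rw [← ha] at hlow
  have hbox : ∀ z ∈ Bx (M + 1), μ (em z) ≤ K1 * t ∧ μ (em (v - z)) ≤ K1 * t := by
    intro z hz
    rw [mem_Bx] at hz
    have h1 : |(z.1 : ℝ)| ≤ (M : ℝ) + 1 := by exact_mod_cast hz.1
    have h2 : |(z.2 : ℝ)| ≤ (M : ℝ) + 1 := by exact_mod_cast hz.2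
    have h3 : max |(em z).1| |(em z).2| ≤ (R0 + 4) * t := by
      refine max_le ?_ ?_
      · refine le_trans (show |(em z).1| ≤ (M : ℝ) + 1 from h1) ?_
        linarith
      · refine le_trans (show |(em z).2| ≤ (M : ℝ) + 1 from h2) ?_
        linarith
    have h4 : μ (em z) ≤ Cn * ((R0 + 4) * t) := (hnorm _).trans (by gcongr)
    have h5 : μ (em (v - z)) ≤ μ (em v) + μ (em z) := by
      rw [em_sub]; exact map_sub_le_add μ _ _
    rw [hK1]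
    exact r4 _ _ _ R0 Cn t h4 h5 hm1 hCn ht
  have hE := low_box hX K1 κ0 c0 N0 t hK1' hκ0.le (by linarith) ht0 hc0 hLS q0 v (M + 1) hbox
  rw [← hs] at hE q1 q2 q3 q5 hs1
  rw [← hH] at q1 q2
  rw [← hB] at q1 q2
  have hE' : (volume : Measure Ω).real {ω | ∃ z ∈ Bx (M + 1), D (env X ω) 0 z < μ (em z) - K1 * s ∨
      D (env X ω) z v < μ (em (v - z)) - K1 * s} ≤ 1 / 4 := by
    refine hE.trans (le_trans ?_ q5)
    have h1 : 2 * ((M + 1 : ℕ) : ℝ) + 1 ≤ (2 * R0 + 9) * t := by push_cast; linarith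
    have h2 : (2 * ((M + 1 : ℕ) : ℝ) + 1) ^ 2 ≤ ((2 * R0 + 9) * t) ^ 2 :=
      pow_le_pow_left₀ (by positivity) h1 2
    have h3 := (Real.exp_pos (-(s ^ c0))).le
    calc _ ≤ 2 * ((2 * R0 + 9) * t) ^ 2 * Real.exp (-(s ^ c0)) :=
          mul_le_mul_of_nonneg_right (mul_le_mul_of_nonneg_left h2 (by norm_num)) h3
      _ = _ := by ring
  have hfin := swap hX δ hδ0.le hδ1 S hδF v a _ hE' ?_
  · linarith
  intro ω hω hnE
  have hnE' : ∀ z ∈ Bx (M + 1), μ (em z) - K1 * s ≤ D (env X ω) 0 z ∧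
      μ (em (v - z)) - K1 * s ≤ D (env X ω) z v := by
    intro z hz
    by_contra hcon
    apply hnE
    refine ⟨z, hz, ?_⟩
    rw [not_and_or, not_le, not_le] at hcon
    exact hcon
  rw [← hH] at hS
  exact incl (env X ω) hω μ v Cn R0 t s H B K1 δ a hCn hR0 hu ht hm1 hm2 he1 he2 hap hs1 hH0
    hHt q1 q2 q3 hδ0 hδt M hM1 S hS hnE'

/-- thin upper tails at all points are impossible for `κ > 4 / 5` -/
theorem no_up (hX : Iid X) {μ : Seminorm ℝ (ℝ × ℝ)}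
    (hG : Good (fun ω v => D (env X ω) 0 v) μ) (κ e A : ℝ) (hκ : 4 / 5 < κ) (hκ1 : κ < 1)
    (hA : 0 < A) (he : e < Real.exp (-1))
    (hUP : ∀ v : ℤ × ℤ, (volume : Measure Ω).real
      {ω | μ (em v) + A * (1 + μ (em v)) ^ (1 - κ) ≤ D (env X ω) 0 v} ≤ e) : False := by
  obtain ⟨d, hd, hed⟩ := ex_d e he
  have hUP' : ∀ v : ℤ × ℤ, (volume : Measure Ω).real
      {ω | μ (em v) + A * (1 + μ (em v)) ^ (1 - κ) ≤ D (env X ω) 0 v} ≤ Real.exp (-(1 + d)) :=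
    fun v => (hUP v).trans hed
  obtain ⟨κ0, hκ0⟩ : ∃ κ0, κ0 = (4 / 5 + κ) / 2 := ⟨_, rfl⟩
  have k1 : 4 / 5 < κ0 := by rw [hκ0]; linarith
  have k2 : κ0 < κ := by rw [hκ0]; linarith
  obtain ⟨c0, N0, hc0, hLS⟩ := lower hX hG κ κ0 A d (by linarith) k2 hκ1 hA hd hUP'
  obtain ⟨cm, Cn, hcm, hCn, hnorm⟩ := cNORM μ hG.norm
  obtain ⟨u, hu1, hu0, hu⟩ := extr μ hG.norm
  obtain ⟨R0, hR⟩ : ∃ R0, R0 = eu u := ⟨_, rfl⟩
  rw [← hR] at hu0 hu
  obtain ⟨h, hh⟩ : ∃ h, h = (1 - κ0 + 1 / 5) / 2 := ⟨_, rfl⟩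
  have h1 : 1 - κ0 < h := by rw [hh]; linarith
  have h2 : h < 1 / 5 := by rw [hh]; linarith
  have h3 : 0 < 1 - κ0 := by linarith
  obtain ⟨K1, hK1⟩ : ∃ K1, K1 = 1 + Cn * (R0 + 5) := ⟨_, rfl⟩
  have q0 := ev0 N0 (1 - κ0) h3
  have q1 := ev (R0 * (1 / R0 + 2 * K1 + Cn + A * (1 + 2 / d) * (2 + Cn))) (1 - κ0) h h1
  have q2 := ev (2 * (2 * Cn + K1 + A * (1 + 2 / d) * (2 + Cn))) (1 - κ0) h h1
  have q3 := ev (2 * (Cn + K1)) (1 - κ0) 1 (by linarith)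
  have q4 := ev (17 * (4 * ((8 * (R0 + 2) + 3) * (2 * R0 + 7)))) ((3 + h) / 2) (2 - 2 * h)
    (by linarith)
  have q5 := ev2 (2 * (2 * R0 + 9) ^ 2) 2 1 ((1 - κ0) * c0) ((1 - κ0) * c0 / 2) one_pos
    (by positivity) (by
      have : 0 < (1 - κ0) * c0 := by positivity
      linarith)
  obtain ⟨t, t0, t1, t2, t3, t4, t5, t6⟩ := (q0.and (q1.and (q2.and (q3.and (q4.and (q5.and
    (eventually_gt_atTop (1 : ℝ)))))))).exists
  have ht0 : 0 < t := by linarith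
  refine scale hX hG Cn hCn (fun x => (hnorm x).2) u hu1 R0 hR hu0 hu κ κ0 A d c0 N0 h K1 t
    (by linarith) k2 hκ1 hA hd hc0 (by linarith) (by linarith) hUP' hLS hK1 t6 t0 t1 t2
    (by rw [Real.rpow_one] at t3; exact t3) t4 ?_
  rw [← Real.rpow_mul ht0.le]
  rw [one_mul] at t5
  refine t5.trans ?_
  have : Real.exp (-(t ^ ((1 - κ0) * c0 / 2))) ≤ 1 := by
    rw [Real.exp_le_one_iff]
    have := Real.rpow_nonneg ht0.le ((1 - κ0) * c0 / 2)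
    linarith
  linarith

end

end Pool.Agent.V7H97.LF
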