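import Pool.Agent.V7H97.LF.Core

/-!
# Lower bounds with the exponent `1 / 5`
-/

set_option autoImplicit false

open MeasureTheory ProbabilityTheory Filter Set
open scoped Pointwise Topology

namespace Pool.Agent.V7H97.LF

open Pool.Agent.N662.FP Pool.Agent.V7H97.FO

theorem bad_mono {Ω : Type} (T : Ω → ℤ × ℤ → ℝ) (μ : Seminorm ℝ (ℝ × ℝ)) (κ κ' t : ℝ)
    (h : κ ≤ κ') (h0 : 0 < κ) (ht : 1 ≤ t) : Bad T μ κ t ⊆ Bad T μ κ' t := by
  intro ω hω hcon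
  apply hω
  refine Set.Subset.trans ?_ hcon
  have ht0 : 0 < t := by linarith
  have h1 : t ^ (-κ') ≤ t ^ (-κ) := Real.rpow_le_rpow_of_exponent_le ht (by linarith)
  have h2 : t ^ (-κ) ≤ 1 := Real.rpow_le_one_of_one_le_of_nonpos ht (by linarith)
  obtain ⟨p, hp⟩ : ∃ p, p = (1 - t ^ (-κ)) * t := ⟨_, rfl⟩
  obtain ⟨q, hq⟩ : ∃ q, q = (1 - t ^ (-κ')) * t := ⟨_, rfl⟩
  rw [← hp, ← hq]
  have hp0 : 0 ≤ p := by rw [hp]; exact mul_nonneg (by linarith) ht0.le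
  have hpq : p ≤ q := by rw [hp, hq]; exact mul_le_mul_of_nonneg_right (by linarith) ht0.le
  rintro x ⟨y, hy, rfl⟩
  rcases eq_or_lt_of_le (hp0.trans hpq) with hq0 | hq0
  · have : p = q := le_antisymm hpq (by rw [← hq0]; exact hp0)
    rw [this]
    exact ⟨y, hy, rfl⟩
  · refine ⟨(p / q) • y, ?_, ?_⟩
    · show μ ((p / q) • y) ≤ 1
      rw [map_smul_eq_mul, Real.norm_eq_abs, abs_of_nonneg (div_nonneg hp0 hq0.le)]
      have h3 : p / q ≤ 1 := by rw [div_le_one hq0]; exact hpq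
      have h4 : μ y ≤ 1 := hy
      have h5 : 0 ≤ p / q := div_nonneg hp0 hq0.le
      calc p / q * μ y ≤ 1 * 1 := mul_le_mul h3 h4 (apply_nonneg μ y) (by norm_num)
        _ = 1 := one_mul 1
    · show q • (p / q) • y = p • y
      rw [smul_smul, mul_div_cancel₀ _ hq0.ne']

section
variable {Ω : Type} [MeasureSpace Ω] [IsProbabilityMeasure (volume : Measure Ω)]
variable {X : Sym2 (ℤ × ℤ) → Ω → ℝ}

/-- the estimates with exponents below `K` are false for `K > 4 / 5` -/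
theorem no5 (hX : Iid X) {μ : Seminorm ℝ (ℝ × ℝ)}
    (hG : Good (fun ω v => D (env X ω) 0 v) μ) (K : ℝ) (hK0 : 4 / 5 < K) (hK : K < 1)
    (h5 : ∀ κ : ℝ, 0 < κ → κ < K → ∃ e : ℝ, e < Real.exp (-1) ∧ ∃ A : ℝ, 0 < A ∧ ∀ v : ℤ × ℤ,
        (volume : Measure Ω).real
          {ω | μ (em v) + A * (1 + μ (em v)) ^ (1 - κ) ≤ D (env X ω) 0 v} ≤ e) : False := by
  obtain ⟨e, he, A, hA, hUP⟩ := h5 ((4 / 5 + K) / 2) (by linarith) (by linarith)
  exact no_up hX hG ((4 / 5 + K) / 2) e A (by linarith) (by linarith) hA he hUP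

theorem one_le_size (v : ℤ × ℤ) : 1 ≤ 1 + |(v.1 : ℝ)| + |(v.2 : ℝ)| := by
  have := abs_nonneg (v.1 : ℝ)
  have := abs_nonneg (v.2 : ℝ)
  linarith

theorem size_pow (v : ℤ × ℤ) (A χ c : ℝ) (h : χ ≤ c) :
    A * (1 + |(v.1 : ℝ)| + |(v.2 : ℝ)|) ^ χ ≤ |A| * (1 + |(v.1 : ℝ)| + |(v.2 : ℝ)|) ^ c := by
  have h1 := one_le_size v
  have h2 : (1 + |(v.1 : ℝ)| + |(v.2 : ℝ)|) ^ χ ≤ (1 + |(v.1 : ℝ)| + |(v.2 : ℝ)|) ^ c :=
    Real.rpow_le_rpow_of_exponent_le h1 h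
  have h3 : 0 ≤ (1 + |(v.1 : ℝ)| + |(v.2 : ℝ)|) ^ χ := Real.rpow_nonneg (by linarith) _
  calc A * (1 + |(v.1 : ℝ)| + |(v.2 : ℝ)|) ^ χ ≤ |A| * (1 + |(v.1 : ℝ)| + |(v.2 : ℝ)|) ^ χ :=
        mul_le_mul_of_nonneg_right (le_abs_self A) h3
    _ ≤ _ := mul_le_mul_of_nonneg_left h2 (abs_nonneg A)

theorem fifth (hX : Iid X) {μ : Seminorm ℝ (ℝ × ℝ)}
    (hG : Good (fun ω v => D (env X ω) 0 v) μ)
    (hlim : ∀ v : ℤ × ℤ, ∀ᵐ ω ∂(volume : Measure Ω),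
      Tendsto (fun n : ℕ => D (env X ω) 0 ((n : ℤ) • v) / (n : ℝ)) atTop (𝓝 (μ (em v)))) :
    (∀ κ e : ℝ, 4 / 5 < κ → e < Real.exp (-1) → ∃ᶠ t : ℝ in atTop,
      e < (volume : Measure Ω).real (Bad (fun ω v => D (env X ω) 0 v) μ κ t)) ∧
    ∀ χ A : ℝ, χ < 1 / 5 →
      (∃ v : ℤ × ℤ, A * (1 + |(v.1 : ℝ)| + |(v.2 : ℝ)|) ^ (2 * χ) <
        variance (fun ω => D (env X ω) 0 v) (volume : Measure Ω)) ∧
      (∀ a : ℤ × ℤ → ℝ, ∃ v : ℤ × ℤ, A * (1 + |(v.1 : ℝ)| + |(v.2 : ℝ)|) ^ χ <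
        ∫ ω, |D (env X ω) 0 v - a v| ∂(volume : Measure Ω)) ∧
      (∃ v : ℤ × ℤ, μ (em v) + A * (1 + |(v.1 : ℝ)| + |(v.2 : ℝ)|) ^ χ <
        ∫ ω, D (env X ω) 0 v ∂(volume : Measure Ω)) ∧
      (∃ v : ℤ × ℤ, ∫ ω, D (env X ω) 0 (v + v) ∂(volume : Measure Ω) +
        A * (1 + |(v.1 : ℝ)| + |(v.2 : ℝ)|) ^ χ <
          2 * ∫ ω, D (env X ω) 0 v ∂(volume : Measure Ω)) ∧
      (∀ e : ℝ, e < Real.exp (-1) → ∃ v : ℤ × ℤ, e < (volume : Measure Ω).real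
        {ω | μ (em v) + A * (1 + |(v.1 : ℝ)| + |(v.2 : ℝ)|) ^ χ ≤ D (env X ω) 0 v}) := by
  constructor
  · intro κ e hκ he
    by_contra hcon
    rw [Filter.not_frequently] at hcon
    obtain ⟨K, hK⟩ : ∃ K, K = min κ (9 / 10) := ⟨_, rfl⟩
    have hK0 : 4 / 5 < K := by rw [hK]; exact lt_min hκ (by norm_num)
    have hK1 : K < 1 := by rw [hK]; exact lt_of_le_of_lt (min_le_right _ _) (by norm_num)
    have hKκ : K ≤ κ := by rw [hK]; exact min_le_left _ _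
    have h4 : ∀ κ : ℝ, 0 < κ → κ < K → ∃ e : ℝ, e < Real.exp (-1) ∧ ∀ᶠ t : ℝ in atTop,
        (volume : Measure Ω).real (Bad (fun ω v => D (env X ω) 0 v) μ κ t) ≤ e := by
      intro κ' g0 g1
      refine ⟨e, he, ?_⟩
      filter_upwards [hcon, eventually_ge_atTop 1] with t ht ht1
      rw [not_lt] at ht
      exact (measureReal_mono (bad_mono _ μ κ' κ t (by linarith) g0 ht1) (measure_ne_top _ _)).trans
        ht
    exact no5 hX hG K hK0 hK1 (((eq hX hG K hK1).out 3 4).1 h4)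
  · intro χ A hχ
    obtain ⟨c, hc⟩ : ∃ c, c = max χ (1 / 10) := ⟨_, rfl⟩
    have hc0 : 0 < c := by rw [hc]; exact lt_max_of_lt_right (by norm_num)
    have hc1 : c < 1 / 5 := by rw [hc]; exact max_lt hχ (by norm_num)
    have hχc : χ ≤ c := by rw [hc]; exact le_max_left _ _
    have hK0 : 4 / 5 < 1 - c := by linarith
    have hK1 : 1 - c < 1 := by linarith
    refine ⟨?_, ?_, ?_, ?_, ?_⟩
    · by_contra hcon
      push Not at hcon
      have h2 : ∀ κ : ℝ, 0 < κ → κ < 1 - c → ∃ A : ℝ, ∀ v : ℤ × ℤ,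
          variance (fun ω => D (env X ω) 0 v) (volume : Measure Ω) ≤
            A * (1 + |(v.1 : ℝ)| + |(v.2 : ℝ)|) ^ (2 * (1 - κ)) := by
        intro κ g0 g1
        exact ⟨|A|, fun v => (hcon v).trans (size_pow v A _ _ (by linarith))⟩
      have h1 := ((eq2 hX hG hlim (1 - c) hK1).out 1 0).1 h2
      exact no5 hX hG (1 - c) hK0 hK1 (((eq hX hG (1 - c) hK1).out 0 4).1 h1)
    · intro a
      by_contra hcon
      push Not at hcon
      have h2 : ∀ κ : ℝ, 0 < κ → κ < 1 - c → ∃ (A : ℝ) (a : ℤ × ℤ → ℝ), ∀ v : ℤ × ℤ,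
          ∫ ω, |D (env X ω) 0 v - a v| ∂(volume : Measure Ω) ≤
            A * (1 + |(v.1 : ℝ)| + |(v.2 : ℝ)|) ^ (1 - κ) := by
        intro κ g0 g1
        exact ⟨|A|, a, fun v => (hcon v).trans (size_pow v A _ _ (by linarith))⟩
      have h1 := ((eq2 hX hG hlim (1 - c) hK1).out 3 0).1 h2
      exact no5 hX hG (1 - c) hK0 hK1 (((eq hX hG (1 - c) hK1).out 0 4).1 h1)
    · by_contra hcon
      push Not at hcon
      have h2 : ∀ κ : ℝ, 0 < κ → κ < 1 - c → ∃ A : ℝ, ∀ v : ℤ × ℤ,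
          ∫ ω, D (env X ω) 0 v ∂(volume : Measure Ω) ≤
            μ (em v) + A * (1 + |(v.1 : ℝ)| + |(v.2 : ℝ)|) ^ (1 - κ) := by
        intro κ g0 g1
        refine ⟨|A|, fun v => (hcon v).trans ?_⟩
        have := size_pow v A χ (1 - κ) (by linarith)
        linarith
      have h1 := ((eq3 hX hG hlim (1 - c) hK1).out 1 0).1 h2
      exact no5 hX hG (1 - c) hK0 hK1 (((eq hX hG (1 - c) hK1).out 0 4).1 h1)
    · by_contra hcon
      push Not at hcon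
      have h2 : ∀ κ : ℝ, 0 < κ → κ < 1 - c → ∃ A : ℝ, ∀ v : ℤ × ℤ,
          2 * ∫ ω, D (env X ω) 0 v ∂(volume : Measure Ω) ≤
            ∫ ω, D (env X ω) 0 (v + v) ∂(volume : Measure Ω) +
              A * (1 + |(v.1 : ℝ)| + |(v.2 : ℝ)|) ^ (1 - κ) := by
        intro κ g0 g1
        refine ⟨|A|, fun v => (hcon v).trans ?_⟩
        have := size_pow v A χ (1 - κ) (by linarith)
        linarith
      have h1 := ((eq3 hX hG hlim (1 - c) hK1).out 2 0).1 h2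
      exact no5 hX hG (1 - c) hK0 hK1 (((eq hX hG (1 - c) hK1).out 0 4).1 h1)
    · intro e he
      by_contra hcon
      push Not at hcon
      obtain ⟨C, hC1, hCc⟩ := size_cmp μ hG.norm
      have hC0 : 0 < C := by linarith
      refine no_up hX hG (1 - c) e (|A| * C ^ c + 1) hK0 hK1 (by positivity) he fun v => ?_
      refine le_trans (measureReal_mono (fun ω hω => ?_) (measure_ne_top _ _)) (hcon v)
      have h1 : μ (em v) + (|A| * C ^ c + 1) * (1 + μ (em v)) ^ (1 - (1 - c)) ≤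
        D (env X ω) 0 v := hω
      show μ (em v) + A * (1 + |(v.1 : ℝ)| + |(v.2 : ℝ)|) ^ χ ≤ D (env X ω) 0 v
      have h2 := size_pow v A χ c hχc
      have h3 := apply_nonneg μ (em v)
      have h4 : (1 + |(v.1 : ℝ)| + |(v.2 : ℝ)|) ^ c ≤ C ^ c * (1 + μ (em v)) ^ c :=
        pow_cmp (by positivity) hC0.le (by linarith) (hCc v).2 hc0.le
      have h5 : |A| * (1 + |(v.1 : ℝ)| + |(v.2 : ℝ)|) ^ c ≤ |A| * (C ^ c * (1 + μ (em v)) ^ c) :=
        mul_le_mul_of_nonneg_left h4 (abs_nonneg A)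
      have h6 : 0 ≤ (1 + μ (em v)) ^ c := Real.rpow_nonneg (by linarith) _
      rw [sub_sub_cancel] at h1
      have h7 : (|A| * C ^ c + 1) * (1 + μ (em v)) ^ c =
          |A| * (C ^ c * (1 + μ (em v)) ^ c) + (1 + μ (em v)) ^ c := by ring
      linarith

end

end Pool.Agent.V7H97.LF
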