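import Mathlib

/-!
# Scaling finitely many exponential weights: change of measure
-/

set_option autoImplicit false

open MeasureTheory ProbabilityTheory Filter Set
open scoped ENNReal

namespace Pool.Agent.V7H97.LF

/-- density of `l X` with respect to `X`, for an exponential variable `X` -/
noncomputable def ell (l t : ℝ) : ℝ≥0∞ := ENNReal.ofReal (l⁻¹ * Real.exp ((1 - l⁻¹) * t))

theorem ell_meas (l : ℝ) : Measurable (ell l) := by
  unfold ell
  fun_prop

theorem exp_def : expMeasure 1 = (volume : Measure ℝ).withDensity (exponentialPDF 1) := rfl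

theorem pdf_meas (r : ℝ) : Measurable (exponentialPDF r) :=
  (measurable_exponentialPDFReal r).ennreal_ofReal

theorem lint_scale (l : ℝ) (hl : 0 < l) (g : ℝ → ℝ≥0∞) (hg : Measurable g) :
    ∫⁻ t, g (l * t) = ENNReal.ofReal l⁻¹ * ∫⁻ t, g t := by
  have h1 := Real.map_volume_mul_left hl.ne'
  have h2 : ∫⁻ t, g t ∂(Measure.map (fun x => l * x) (volume : Measure ℝ)) = ∫⁻ t, g (l * t) :=
    lintegral_map hg (measurable_const_mul l)
  rw [← h2]
  have h3 : Measure.map (fun x => l * x) (volume : Measure ℝ) =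
      ENNReal.ofReal |l⁻¹| • (volume : Measure ℝ) := h1
  rw [h3, lintegral_smul_measure, abs_of_pos (inv_pos.2 hl)]
  rfl

theorem tilt1 (l : ℝ) (hl : 0 < l) (f : ℝ → ℝ≥0∞) (hf : Measurable f) :
    ∫⁻ t, f (l * t) ∂(expMeasure 1) = ∫⁻ t, f t * ell l t ∂(expMeasure 1) := by
  have hfm : Measurable (fun t => f (l * t)) := hf.comp (measurable_const_mul l)
  have hfm2 : Measurable (fun t => f t * ell l t) := hf.mul (ell_meas l)
  rw [exp_def, lintegral_withDensity_eq_lintegral_mul _ (pdf_meas 1) hfm,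
    lintegral_withDensity_eq_lintegral_mul _ (pdf_meas 1) hfm2]
  have h1 : ∫⁻ t, (exponentialPDF 1 * (fun t => f (l * t))) t =
      ∫⁻ t, (fun s => exponentialPDF 1 (l⁻¹ * s) * f s) (l * t) := by
    refine lintegral_congr fun t => ?_
    show exponentialPDF 1 t * f (l * t) = exponentialPDF 1 (l⁻¹ * (l * t)) * f (l * t)
    rw [inv_mul_cancel_left₀ hl.ne']
  have h2 : Measurable (fun s => exponentialPDF 1 (l⁻¹ * s) * f s) :=
    ((pdf_meas 1).comp (measurable_const_mul _)).mul hf
  refine h1.trans ?_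
  rw [lint_scale l hl _ h2, ← lintegral_const_mul _ h2]
  refine lintegral_congr fun t => ?_
  show ENNReal.ofReal l⁻¹ * (exponentialPDF 1 (l⁻¹ * t) * f t) =
    exponentialPDF 1 t * (f t * ell l t)
  have h3 : ENNReal.ofReal l⁻¹ * exponentialPDF 1 (l⁻¹ * t) = exponentialPDF 1 t * ell l t := by
    rw [exponentialPDF_eq, exponentialPDF_eq, ell]
    by_cases ht : 0 ≤ t
    · have ht' : 0 ≤ l⁻¹ * t := by positivity
      rw [if_pos ht, if_pos ht', ← ENNReal.ofReal_mul (inv_pos.2 hl).le,
        ← ENNReal.ofReal_mul (by positivity)]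
      congr 1
      have : Real.exp (-(1 * (l⁻¹ * t))) = Real.exp (-(1 * t)) * Real.exp ((1 - l⁻¹) * t) := by
        rw [← Real.exp_add]; congr 1; ring
      rw [this]; ring
    · have ht' : ¬ 0 ≤ l⁻¹ * t := by
        rw [not_le] at ht ⊢
        exact mul_neg_of_pos_of_neg (inv_pos.2 hl) ht
      rw [if_neg ht, if_neg ht']
      simp
  calc ENNReal.ofReal l⁻¹ * (exponentialPDF 1 (l⁻¹ * t) * f t) =
      (ENNReal.ofReal l⁻¹ * exponentialPDF 1 (l⁻¹ * t)) * f t := by ring
    _ = (exponentialPDF 1 t * ell l t) * f t := by rw [h3]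
    _ = _ := by ring

theorem ell_int (l : ℝ) (hl : 0 < l) (hl2 : l < 2) :
    ∫⁻ t, ell l (l * t) ∂(expMeasure 1) = ENNReal.ofReal (l * (2 - l))⁻¹ := by
  have hfm : Measurable (fun t => ell l (l * t)) := (ell_meas l).comp (measurable_const_mul l)
  rw [exp_def, lintegral_withDensity_eq_lintegral_mul _ (pdf_meas 1) hfm]
  have h2 : ∫⁻ t, (exponentialPDF 1 * fun t => ell l (l * t)) t =
      ∫⁻ t, ENNReal.ofReal (l * (2 - l))⁻¹ * exponentialPDF (2 - l) t := by
    refine lintegral_congr fun t => ?_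
    show exponentialPDF 1 t * ell l (l * t) = _
    rw [exponentialPDF_eq, exponentialPDF_eq, ell]
    by_cases ht : 0 ≤ t
    · have h0 : 0 < 2 - l := by linarith
      rw [if_pos ht, if_pos ht, ← ENNReal.ofReal_mul (by positivity),
        ← ENNReal.ofReal_mul (by positivity)]
      congr 1
      have : Real.exp (-((2 - l) * t)) = Real.exp (-(1 * t)) * Real.exp ((1 - l⁻¹) * (l * t)) := by
        rw [← Real.exp_add]; congr 1; field_simp; ring
      rw [this]; field_simp
    · rw [if_neg ht, if_neg ht]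
      simp
  refine h2.trans ?_
  rw [lintegral_const_mul _ (pdf_meas _), lintegral_exponentialPDF_eq_one (by linarith), mul_one]

section
variable {Ω ι : Type} [MeasureSpace Ω] [IsProbabilityMeasure (volume : Measure Ω)]
variable {X : ι → Ω → ℝ}

open Classical in
/-- the weights in `F` are multiplied by `l` -/
noncomputable def sc (F : Finset ι) (l : ℝ) (x : ι → ℝ) : ι → ℝ :=
  fun e => if e ∈ F then l * x e else x e

theorem sc_in (F : Finset ι) (l : ℝ) (x : ι → ℝ) {e : ι} (he : e ∈ F) : sc F l x e = l * x e := by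
  unfold sc; rw [if_pos he]

theorem sc_out (F : Finset ι) (l : ℝ) (x : ι → ℝ) {e : ι} (he : e ∉ F) : sc F l x e = x e := by
  unfold sc; rw [if_neg he]

theorem sc_meas (F : Finset ι) (l : ℝ) : Measurable (sc F l) := by
  classical
  refine measurable_pi_iff.2 fun e => ?_
  by_cases he : e ∈ F
  · have : (fun x : ι → ℝ => sc F l x e) = fun x => l * x e := by
      funext x; exact sc_in F l x he
    rw [this]
    exact (measurable_const_mul l).comp (measurable_pi_apply e)
  · have : (fun x : ι → ℝ => sc F l x e) = fun x => x e := by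
      funext x; exact sc_out F l x he
    rw [this]
    exact measurable_pi_apply e

open Classical in
theorem tilt_one (hm : ∀ e, Measurable (X e)) (hi : iIndepFun X (volume : Measure Ω))
    (hl : ∀ e, Measure.map (X e) (volume : Measure Ω) = expMeasure 1) (l : ℝ) (hl0 : 0 < l)
    (e : ι) (g : (ι → ℝ) → ℝ≥0∞) (hg : Measurable g) :
    ∫⁻ ω, g (Function.update (fun i => X i ω) e (l * X e ω)) =
      ∫⁻ ω, g (fun i => X i ω) * ell l (X e ω) := by
  have hYm : Measurable (fun ω => Function.update (fun i => X i ω) e (0 : ℝ)) := by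
    refine measurable_pi_iff.2 fun i => ?_
    by_cases h : i = e
    · subst h
      simp only [Function.update_self]
      exact measurable_const
    · simp only [Function.update_of_ne h]
      exact hm i
  have hind : IndepFun (fun ω => Function.update (fun i => X i ω) e (0 : ℝ)) (X e)
      (volume : Measure Ω) := by
    have hle : ∀ i, MeasurableSpace.comap (X i) inferInstance ≤ (inferInstance : MeasurableSpace Ω) :=
      fun i => (hm i).comap_le
    have hii : iIndep (fun i => MeasurableSpace.comap (X i) inferInstance) (volume : Measure Ω) :=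
      (iIndepFun_iff_iIndep _ _ _).1 hi
    have hd : Disjoint {i : ι | i ≠ e} {e} := by
      rw [Set.disjoint_left]
      intro i h1 h2
      exact h1 h2
    have hI := indep_iSup_of_disjoint hle hii hd
    rw [IndepFun_iff_Indep]
    refine indep_of_indep_of_le_left (indep_of_indep_of_le_right hI ?_) ?_
    · exact le_biSup (fun i => MeasurableSpace.comap (X i) inferInstance) (Set.mem_singleton e)
    · rw [← measurable_iff_comap_le]
      refine (@measurable_pi_iff _ _ _ (_) _ _).2 fun i => ?_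
      by_cases h : i = e
      · subst h
        simp only [Function.update_self]
        exact measurable_const
      · simp only [Function.update_of_ne h]
        rw [measurable_iff_comap_le]
        exact le_biSup (fun i => MeasurableSpace.comap (X i) inferInstance) (show i ∈ {i : ι | i ≠ e} from h)
  have hpair := (indepFun_iff_map_prod_eq_prod_map_map hYm.aemeasurable (hm e).aemeasurable).1 hind
  rw [hl e] at hpair
  have _i : IsProbabilityMeasure (expMeasure 1) := isProbabilityMeasure_expMeasure one_pos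
  have _i : IsProbabilityMeasure (Measure.map (fun ω => Function.update (fun i => X i ω) e (0 : ℝ))
    (volume : Measure Ω)) := Measure.isProbabilityMeasure_map hYm.aemeasurable
  have hup : Measurable (fun q : (ι → ℝ) × ℝ => Function.update q.1 e q.2) := by
    refine measurable_pi_iff.2 fun i => ?_
    by_cases h : i = e
    · subst h
      simp only [Function.update_self]
      exact measurable_snd
    · simp only [Function.update_of_ne h]
      exact (measurable_pi_apply i).comp measurable_fst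
  have hup2 : Measurable (fun q : (ι → ℝ) × ℝ => Function.update q.1 e (l * q.2)) :=
    hup.comp (measurable_fst.prodMk (measurable_snd.const_mul l))
  have key : ∀ Φ : (ι → ℝ) × ℝ → ℝ≥0∞, Measurable Φ →
      ∫⁻ ω, Φ (Function.update (fun i => X i ω) e (0 : ℝ), X e ω) =
      ∫⁻ y, ∫⁻ t, Φ (y, t) ∂(expMeasure 1)
        ∂(Measure.map (fun ω => Function.update (fun i => X i ω) e (0 : ℝ)) (volume : Measure Ω)) := by
    intro Φ hΦ
    rw [← lintegral_prod _ hΦ.aemeasurable, ← hpair, lintegral_map hΦ (hYm.prodMk (hm e))]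
  have k1 := key (fun q => g (Function.update q.1 e (l * q.2))) (hg.comp hup2)
  have k2 := key (fun q => g (Function.update q.1 e q.2) * ell l q.2)
    ((hg.comp hup).mul ((ell_meas l).comp measurable_snd))
  have e1 : ∀ ω, g (Function.update (Function.update (fun i => X i ω) e (0 : ℝ)) e (l * X e ω)) =
      g (Function.update (fun i => X i ω) e (l * X e ω)) := by
    intro ω; rw [Function.update_idem]
  have e2 : ∀ ω, g (Function.update (Function.update (fun i => X i ω) e (0 : ℝ)) e (X e ω)) *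
      ell l (X e ω) = g (fun i => X i ω) * ell l (X e ω) := by
    intro ω
    rw [Function.update_idem, Function.update_eq_self e (fun i => X i ω)]
  have k1' : ∫⁻ ω, g (Function.update (fun i => X i ω) e (l * X e ω)) =
      ∫⁻ y, ∫⁻ t, g (Function.update y e (l * t)) ∂(expMeasure 1)
        ∂(Measure.map (fun ω => Function.update (fun i => X i ω) e (0 : ℝ)) (volume : Measure Ω)) := by
    rw [← k1]
    exact lintegral_congr fun ω => (e1 ω).symm
  have k2' : ∫⁻ ω, g (fun i => X i ω) * ell l (X e ω) =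
      ∫⁻ y, ∫⁻ t, g (Function.update y e t) * ell l t ∂(expMeasure 1)
        ∂(Measure.map (fun ω => Function.update (fun i => X i ω) e (0 : ℝ)) (volume : Measure Ω)) := by
    rw [← k2]
    exact lintegral_congr fun ω => (e2 ω).symm
  rw [k1', k2']
  refine lintegral_congr fun y => ?_
  exact tilt1 l hl0 (fun t => g (Function.update y e t))
    (hg.comp (hup.comp (measurable_const.prodMk measurable_id)))

theorem tilt (hm : ∀ e, Measurable (X e)) (hi : iIndepFun X (volume : Measure Ω))
    (hl : ∀ e, Measure.map (X e) (volume : Measure Ω) = expMeasure 1) (l : ℝ) (hl0 : 0 < l)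
    (F : Finset ι) : ∀ (g : (ι → ℝ) → ℝ≥0∞), Measurable g →
    ∫⁻ ω, g (sc F l (fun i => X i ω)) =
      ∫⁻ ω, g (fun i => X i ω) * ∏ e ∈ F, ell l (X e ω) := by
  classical
  induction F using Finset.induction_on with
  | empty =>
    intro g hg
    refine lintegral_congr fun ω => ?_
    rw [Finset.prod_empty, mul_one]
    congr 1
  | insert e F he ih =>
    intro g hg
    have h1 : ∀ x : ι → ℝ, sc (insert e F) l x = sc F l (Function.update x e (l * x e)) := by
      intro x
      funext i
      by_cases hi : i = e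
      · subst hi
        rw [sc_in _ _ _ (Finset.mem_insert_self _ _), sc_out _ _ _ he, Function.update_self]
      · by_cases hF : i ∈ F
        · rw [sc_in _ _ _ (Finset.mem_insert_of_mem hF), sc_in _ _ _ hF,
            Function.update_of_ne hi]
        · rw [sc_out _ _ _ hF, Function.update_of_ne hi, sc_out]
          rw [Finset.mem_insert, not_or]
          exact ⟨hi, hF⟩
    have h2 : ∫⁻ ω, g (sc (insert e F) l (fun i => X i ω)) =
        ∫⁻ ω, (g ∘ sc F l) (Function.update (fun i => X i ω) e (l * X e ω)) := by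
      refine lintegral_congr fun ω => ?_
      rw [h1]; rfl
    rw [h2, tilt_one hm hi hl l hl0 e _ (hg.comp (sc_meas F l))]
    have h3 : ∫⁻ ω, (g ∘ sc F l) (fun i => X i ω) * ell l (X e ω) =
        ∫⁻ ω, (fun x : ι → ℝ => g x * ell l (x e)) (sc F l (fun i => X i ω)) := by
      refine lintegral_congr fun ω => ?_
      show g (sc F l fun i => X i ω) * ell l (X e ω) =
        g (sc F l fun i => X i ω) * ell l (sc F l (fun i => X i ω) e)
      rw [sc_out _ _ _ he]
    have h4 : Measurable (fun x : ι → ℝ => g x * ell l (x e)) :=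
      hg.mul ((ell_meas l).comp (measurable_pi_apply e))
    rw [h3, ih _ h4]
    refine lintegral_congr fun ω => ?_
    rw [Finset.prod_insert he]
    ring

theorem ell_sq (hm : ∀ e, Measurable (X e)) (hi : iIndepFun X (volume : Measure Ω))
    (hl : ∀ e, Measure.map (X e) (volume : Measure Ω) = expMeasure 1) (l : ℝ) (hl0 : 0 < l)
    (hl2 : l < 2) (F : Finset ι) :
    ∫⁻ ω, (∏ e ∈ F, ell l (X e ω)) * ∏ e ∈ F, ell l (X e ω) =
      (ENNReal.ofReal (l * (2 - l))⁻¹) ^ F.card := by
  classical
  have hg : Measurable (fun x : ι → ℝ => ∏ e ∈ F, ell l (x e)) :=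
    Finset.measurable_fun_prod _ fun e _ => (ell_meas l).comp (measurable_pi_apply e)
  have h1 := tilt hm hi hl l hl0 F _ hg
  rw [← h1]
  have h2 : ∫⁻ ω, ∏ e ∈ F, ell l (sc F l (fun i => X i ω) e) =
      ∫⁻ ω, ∏ e ∈ F, ell l (l * X e ω) := by
    refine lintegral_congr fun ω => Finset.prod_congr rfl fun e he => ?_
    rw [sc_in _ _ _ he]
  rw [h2]
  have hm2 : ∀ e, Measurable (fun ω => ell l (l * X e ω)) := fun e =>
    (ell_meas l).comp ((hm e).const_mul l)
  have hi2 : iIndepFun (fun e ω => ell l (l * X e ω)) (volume : Measure Ω) :=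
    hi.comp (fun _ t => ell l (l * t)) fun _ => (ell_meas l).comp (measurable_const_mul l)
  have h3 := lintegral_prod_eq_prod_lintegral_of_indepFun F (fun e ω => ell l (l * X e ω)) hi2 hm2
  rw [h3, Finset.prod_congr rfl (g := fun _ => ENNReal.ofReal (l * (2 - l))⁻¹) fun e _ => ?_,
    Finset.prod_const]
  have hfm : Measurable (fun t => ell l (l * t)) := (ell_meas l).comp (measurable_const_mul l)
  rw [← ell_int l hl0 hl2, ← hl e, lintegral_map hfm (hm e)]

theorem pw (a : ℝ≥0∞) (ha : a ≠ ⊤) : 1 + 4 * a ≤ a + (1 / 8 + 2 * (1 + a * a)) := by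
  obtain ⟨b, hb0, rfl⟩ : ∃ b : ℝ, 0 ≤ b ∧ a = ENNReal.ofReal b :=
    ⟨a.toReal, ENNReal.toReal_nonneg, (ENNReal.ofReal_toReal ha).symm⟩
  have e1 : (1 : ℝ≥0∞) / 8 = ENNReal.ofReal (1 / 8) := by
    rw [ENNReal.ofReal_div_of_pos (by norm_num)]; simp
  have e2 : (1 : ℝ≥0∞) = ENNReal.ofReal 1 := by simp
  have e3 : (4 : ℝ≥0∞) = ENNReal.ofReal 4 := by simp
  have e4 : (2 : ℝ≥0∞) = ENNReal.ofReal 2 := by simp
  rw [e1, e3, e4, e2, ← ENNReal.ofReal_mul (by norm_num), ← ENNReal.ofReal_add (by norm_num)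
    (by positivity), ← ENNReal.ofReal_mul hb0, ← ENNReal.ofReal_add (by norm_num) (by positivity),
    ← ENNReal.ofReal_mul (by norm_num), ← ENNReal.ofReal_add (by norm_num) (by positivity),
    ← ENNReal.ofReal_add hb0 (by positivity)]
  apply ENNReal.ofReal_le_ofReal
  nlinarith [sq_nonneg (b - 3 / 4)]

theorem pw0 (a : ℝ≥0∞) (ha : a ≠ ⊤) : 4 * a ≤ 1 / 8 + 2 * (1 + a * a) := by
  obtain ⟨b, hb0, rfl⟩ : ∃ b : ℝ, 0 ≤ b ∧ a = ENNReal.ofReal b :=
    ⟨a.toReal, ENNReal.toReal_nonneg, (ENNReal.ofReal_toReal ha).symm⟩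
  have e1 : (1 : ℝ≥0∞) / 8 = ENNReal.ofReal (1 / 8) := by
    rw [ENNReal.ofReal_div_of_pos (by norm_num)]; simp
  have e2 : (1 : ℝ≥0∞) = ENNReal.ofReal 1 := by simp
  have e3 : (4 : ℝ≥0∞) = ENNReal.ofReal 4 := by simp
  have e4 : (2 : ℝ≥0∞) = ENNReal.ofReal 2 := by simp
  rw [e1, e3, e4, e2, ← ENNReal.ofReal_mul (by norm_num), ← ENNReal.ofReal_mul hb0,
    ← ENNReal.ofReal_add (by norm_num) (by positivity),
    ← ENNReal.ofReal_mul (by norm_num), ← ENNReal.ofReal_add (by norm_num) (by positivity)]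
  apply ENNReal.ofReal_le_ofReal
  nlinarith [sq_nonneg (b - 1)]

/-- scaling few weights by little does not change the law much -/
theorem cmp (hm : ∀ e, Measurable (X e)) (hi : iIndepFun X (volume : Measure Ω))
    (hl : ∀ e, Measure.map (X e) (volume : Measure Ω) = expMeasure 1) (δ : ℝ) (h0 : 0 ≤ δ)
    (h1 : δ < 1) (F : Finset ι) (hF : δ ^ 2 * (F.card : ℝ) ≤ 1 / 17) (G : Set (ι → ℝ))
    (hG : MeasurableSet G) :
    (volume : Measure Ω).real {ω | (fun i => X i ω) ∈ G} ≤
      (volume : Measure Ω).real {ω | sc F (1 + δ) (fun i => X i ω) ∈ G} + 1 / 4 := by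
  classical
  have hl0 : 0 < 1 + δ := by linarith
  have hl2 : 1 + δ < 2 := by linarith
  have hXm : Measurable (fun ω i => X i ω) := measurable_pi_iff.2 hm
  obtain ⟨L, hL⟩ : ∃ L : Ω → ℝ≥0∞, L = fun ω => ∏ e ∈ F, ell (1 + δ) (X e ω) := ⟨_, rfl⟩
  have hLm : Measurable L := by
    rw [hL]
    exact Finset.measurable_fun_prod _ fun e _ => (ell_meas _).comp (hm e)
  have hLt : ∀ ω, L ω ≠ ⊤ := by
    intro ω
    rw [hL]
    exact ENNReal.prod_ne_top fun e _ => ENNReal.ofReal_ne_top
  have hA : MeasurableSet {ω | (fun i => X i ω) ∈ G} := hXm hG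
  have hB : MeasurableSet {ω | sc F (1 + δ) (fun i => X i ω) ∈ G} :=
    ((sc_meas F (1 + δ)).comp hXm) hG
  have t1 : (volume : Measure Ω) {ω | sc F (1 + δ) (fun i => X i ω) ∈ G} =
      ∫⁻ ω, ({ω | (fun i => X i ω) ∈ G}.indicator 1 ω : ℝ≥0∞) * L ω := by
    have h2 := tilt hm hi hl (1 + δ) hl0 F (G.indicator 1) (measurable_one.indicator hG)
    have h3 : ∫⁻ ω, (G.indicator 1 (sc F (1 + δ) (fun i => X i ω)) : ℝ≥0∞) =
        (volume : Measure Ω) {ω | sc F (1 + δ) (fun i => X i ω) ∈ G} := by
      rw [← lintegral_indicator_one hB]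
      rfl
    rw [← h3, h2, hL]
    rfl
  have t2 : ∫⁻ ω, L ω = 1 := by
    have h2 := tilt hm hi hl (1 + δ) hl0 F (fun _ => 1) measurable_const
    simp only [one_mul, lintegral_const, measure_univ] at h2
    rw [hL, ← h2]
  have t3 : ∫⁻ ω, L ω * L ω ≤ ENNReal.ofReal (17 / 16) := by
    have h2 := ell_sq hm hi hl (1 + δ) hl0 hl2 F
    have h3 : ∫⁻ ω, L ω * L ω = (ENNReal.ofReal ((1 + δ) * (2 - (1 + δ)))⁻¹) ^ F.card := by
      rw [hL]; exact h2
    have hp : 0 < (1 + δ) * (2 - (1 + δ)) := mul_pos hl0 (by linarith)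
    rw [h3, ← ENNReal.ofReal_pow (by positivity)]
    apply ENNReal.ofReal_le_ofReal
    have h4 : (1 + δ) * (2 - (1 + δ)) = 1 + -(δ ^ 2) := by ring
    have h5 : 1 + (F.card : ℝ) * (-(δ ^ 2)) ≤ (1 + -(δ ^ 2)) ^ F.card :=
      one_add_mul_le_pow (by nlinarith) _
    have h6 : 16 / 17 ≤ (1 + -(δ ^ 2)) ^ F.card := by linarith
    rw [h4, inv_pow]
    rw [inv_le_comm₀ (by linarith) (by norm_num)]
    refine le_trans (by norm_num) h6
  have main : (volume : Measure Ω) {ω | (fun i => X i ω) ∈ G} + 4 ≤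
      (volume : Measure Ω) {ω | sc F (1 + δ) (fun i => X i ω) ∈ G} +
        (1 / 8 + 2 * (1 + ENNReal.ofReal (17 / 16))) := by
    have h2 : ∫⁻ ω, (({ω | (fun i => X i ω) ∈ G}.indicator 1 ω : ℝ≥0∞) + 4 * L ω) ≤
        ∫⁻ ω, (({ω | (fun i => X i ω) ∈ G}.indicator 1 ω : ℝ≥0∞) * L ω +
          (1 / 8 + 2 * (1 + L ω * L ω))) := by
      refine lintegral_mono fun ω => ?_
      by_cases hω : ω ∈ {ω | (fun i => X i ω) ∈ G}
      · simp only [Set.indicator_of_mem hω, Pi.one_apply, one_mul]
        exact pw (L ω) (hLt ω)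
      · simp only [Set.indicator_of_notMem hω, zero_mul, zero_add]
        exact pw0 (L ω) (hLt ω)
    have i1 : Measurable (fun ω => ({ω | (fun i => X i ω) ∈ G}.indicator 1 ω : ℝ≥0∞)) :=
      measurable_one.indicator hA
    have i2 : Measurable (fun ω => ({ω | (fun i => X i ω) ∈ G}.indicator 1 ω : ℝ≥0∞) * L ω) :=
      i1.mul hLm
    have i3 : Measurable (fun ω => L ω * L ω) := hLm.mul hLm
    have i4 : Measurable (fun ω => 1 + L ω * L ω) := measurable_const.add i3
    rw [lintegral_add_left i1, lintegral_const_mul _ hLm, t2, lintegral_indicator_one hA,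
      lintegral_add_left i2, ← t1, lintegral_add_left measurable_const,
      lintegral_const_mul _ i4, lintegral_add_left measurable_const] at h2
    simp only [lintegral_const, measure_univ, mul_one] at h2
    refine h2.trans ?_
    gcongr
  have e1 : (volume : Measure Ω) {ω | (fun i => X i ω) ∈ G} =
      ENNReal.ofReal ((volume : Measure Ω).real {ω | (fun i => X i ω) ∈ G}) := by
    rw [measureReal_def, ENNReal.ofReal_toReal (measure_ne_top _ _)]
  have e2 : (volume : Measure Ω) {ω | sc F (1 + δ) (fun i => X i ω) ∈ G} =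
      ENNReal.ofReal ((volume : Measure Ω).real {ω | sc F (1 + δ) (fun i => X i ω) ∈ G}) := by
    rw [measureReal_def, ENNReal.ofReal_toReal (measure_ne_top _ _)]
  have e3 : (1 : ℝ≥0∞) / 8 = ENNReal.ofReal (1 / 8) := by
    rw [ENNReal.ofReal_div_of_pos (by norm_num)]; simp
  have e4 : (1 : ℝ≥0∞) = ENNReal.ofReal 1 := by simp
  have e5 : (4 : ℝ≥0∞) = ENNReal.ofReal 4 := by simp
  have e6 : (2 : ℝ≥0∞) = ENNReal.ofReal 2 := by simp
  have p1 := measureReal_nonneg (μ := (volume : Measure Ω)) (s := {ω | (fun i => X i ω) ∈ G})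
  have p2 := measureReal_nonneg (μ := (volume : Measure Ω))
    (s := {ω | sc F (1 + δ) (fun i => X i ω) ∈ G})
  have e7 : ENNReal.ofReal 1 + ENNReal.ofReal (17 / 16) = ENNReal.ofReal (1 + 17 / 16) :=
    (ENNReal.ofReal_add (by norm_num) (by norm_num)).symm
  have e8 : ENNReal.ofReal 2 * ENNReal.ofReal (1 + 17 / 16) = ENNReal.ofReal (2 * (1 + 17 / 16)) :=
    (ENNReal.ofReal_mul (by norm_num)).symm
  have e9 : ENNReal.ofReal (1 / 8) + ENNReal.ofReal (2 * (1 + 17 / 16)) =
      ENNReal.ofReal (1 / 8 + 2 * (1 + 17 / 16)) :=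
    (ENNReal.ofReal_add (by norm_num) (by norm_num)).symm
  rw [e1, e2, e3, e5, e6, e4, e7, e8, e9, ← ENNReal.ofReal_add p1 (by norm_num),
    ← ENNReal.ofReal_add p2 (by norm_num), ENNReal.ofReal_le_ofReal_iff (by positivity)] at main
  linarith

end

end Pool.Agent.V7H97.LF
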