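import Pool.Agent.V7H97.FO.Main3
import Pool.Agent.V7H97.LF.Tilt

/-!
# Thin ellipses and the paths leaving them
-/

set_option autoImplicit false

open MeasureTheory ProbabilityTheory Filter Set

namespace Pool.Agent.V7H97.LF

open Pool.Agent.N662.FP Pool.Agent.V7H97.FO

/-- Euclidean length -/
noncomputable def eu (x : ℝ × ℝ) : ℝ := ‖(⟨x.1, x.2⟩ : ℂ)‖

theorem eu_nonneg (x : ℝ × ℝ) : 0 ≤ eu x := norm_nonneg _

theorem eu_sq (x : ℝ × ℝ) : eu x ^ 2 = x.1 ^ 2 + x.2 ^ 2 := by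
  unfold eu
  rw [Complex.sq_norm, Complex.normSq_mk]
  ring

theorem eu_add (x y : ℝ × ℝ) : eu (x + y) ≤ eu x + eu y := by
  unfold eu
  have : (⟨(x + y).1, (x + y).2⟩ : ℂ) = ⟨x.1, x.2⟩ + ⟨y.1, y.2⟩ := by
    apply Complex.ext <;> simp
  rw [this]
  exact norm_add_le _ _

theorem eu_smul (c : ℝ) (x : ℝ × ℝ) : eu (c • x) = |c| * eu x := by
  unfold eu
  have : (⟨(c • x).1, (c • x).2⟩ : ℂ) = (c : ℂ) * ⟨x.1, x.2⟩ := by
    apply Complex.ext <;> simp
  rw [this, norm_mul, Complex.norm_real, Real.norm_eq_abs]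

theorem fst_le (x : ℝ × ℝ) : |x.1| ≤ eu x := by
  apply abs_le_of_sq_le_sq _ (eu_nonneg x)
  rw [eu_sq]
  nlinarith [sq_nonneg x.2]

theorem snd_le (x : ℝ × ℝ) : |x.2| ≤ eu x := by
  apply abs_le_of_sq_le_sq _ (eu_nonneg x)
  rw [eu_sq]
  nlinarith [sq_nonneg x.1]

theorem eu_le (x : ℝ × ℝ) : eu x ≤ |x.1| + |x.2| := by
  apply le_of_sq_le_sq _ (by positivity)
  rw [eu_sq, ← sq_abs x.1, ← sq_abs x.2]
  nlinarith [mul_nonneg (abs_nonneg x.1) (abs_nonneg x.2)]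

theorem eu_cont : Continuous eu := by
  unfold eu
  have : (fun x : ℝ × ℝ => (⟨x.1, x.2⟩ : ℂ)) = fun x : ℝ × ℝ => (x.1 : ℂ) + x.2 * Complex.I := by
    funext x
    exact Complex.mk_eq_add_mul_I _ _
  have h : Continuous (fun x : ℝ × ℝ => (⟨x.1, x.2⟩ : ℂ)) := by
    rw [this]
    fun_prop
  exact h.norm

theorem extr (μ : Seminorm ℝ (ℝ × ℝ)) (hμ : ∀ x, μ x = 0 → x = 0) :
    ∃ u : ℝ × ℝ, μ u = 1 ∧ 0 < eu u ∧ ∀ x, eu x ≤ eu u * μ x := by
  obtain ⟨cm, Cn, hcm, hCn, hnorm⟩ := cNORM μ hμ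
  have hcont : Continuous μ := by
    refine LipschitzWith.continuous (K := ⟨Cn, hCn.le⟩) (LipschitzWith.of_dist_le_mul fun x y => ?_)
    rw [Real.dist_eq]
    have h1 : |μ x - μ y| ≤ μ (x - y) := by
      rw [abs_le]
      have h2 : μ y ≤ μ x + μ (x - y) := by
        have : y = x - (x - y) := by abel
        conv_lhs => rw [this]
        exact map_sub_le_add μ _ _
      have h3 : μ x ≤ μ y + μ (x - y) := by
        have : x = y + (x - y) := by abel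
        conv_lhs => rw [this]
        exact map_add_le_add μ _ _
      constructor <;> linarith
    refine h1.trans ((hnorm _).2.trans ?_)
    have h4 : max |(x - y).1| |(x - y).2| = dist x y := by
      rw [dist_eq_norm, Prod.norm_def, Real.norm_eq_abs, Real.norm_eq_abs]
    rw [h4]
    rfl
  have hcomp : IsCompact {x : ℝ × ℝ | μ x ≤ 1} := by
    refine Metric.isCompact_of_isClosed_isBounded (isClosed_le hcont continuous_const) ?_
    refine (Metric.isBounded_closedBall (x := (0 : ℝ × ℝ)) (r := 1 / cm)).subset fun x hx => ?_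
    rw [mem_closedBall_zero_iff, Prod.norm_def, Real.norm_eq_abs, Real.norm_eq_abs,
      le_div_iff₀ hcm, mul_comm]
    exact (hnorm x).1.trans hx
  obtain ⟨u, hu, hmax⟩ := hcomp.exists_isMaxOn ⟨0, by simp⟩ eu_cont.continuousOn
  have hpos : ∀ x, x ≠ 0 → 0 < μ x := fun x hx =>
    lt_of_le_of_ne (apply_nonneg μ x) fun h => hx (hμ x h.symm)
  have hall : ∀ x, eu x ≤ eu u * μ x := by
    intro x
    by_cases hx : x = 0
    · subst hx
      have : eu (0 : ℝ × ℝ) = 0 := by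
        have := eu_le 0
        simp at this
        exact le_antisymm this (eu_nonneg _)
      rw [this, map_zero, mul_zero]
    · have h1 := hpos x hx
      have h2 : (μ x)⁻¹ • x ∈ {x : ℝ × ℝ | μ x ≤ 1} := by
        show μ ((μ x)⁻¹ • x) ≤ 1
        rw [map_smul_eq_mul, Real.norm_eq_abs, abs_of_pos (inv_pos.2 h1),
          inv_mul_cancel₀ h1.ne']
      have h3 : eu ((μ x)⁻¹ • x) ≤ eu u := hmax h2
      rw [eu_smul, abs_of_pos (inv_pos.2 h1), inv_mul_le_iff₀ h1, mul_comm] at h3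
      exact h3
  have hu0 : 0 < eu u := by
    have h1 := hall (1, 0)
    have h2 := fst_le (1, 0)
    have h3 := apply_nonneg μ ((1 : ℝ), (0 : ℝ))
    have h4 : (1 : ℝ) ≤ eu u * μ (1, 0) := by
      refine le_trans ?_ h1
      simpa using h2
    by_contra h5
    have h6 : eu u = 0 := le_antisymm (not_lt.1 h5) (eu_nonneg u)
    rw [h6, zero_mul] at h4
    linarith
  refine ⟨u, le_antisymm hu ?_, hu0, hall⟩
  have := hall u
  by_contra h
  rw [not_le] at h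
  nlinarith

theorem heron (w v : ℝ × ℝ) : 4 * (w.1 * v.2 - w.2 * v.1) ^ 2 =
    ((eu w + eu (v - w)) ^ 2 - eu v ^ 2) * (eu v ^ 2 - (eu w - eu (v - w)) ^ 2) := by
  have h1 : ((eu w + eu (v - w)) ^ 2 - eu v ^ 2) * (eu v ^ 2 - (eu w - eu (v - w)) ^ 2) =
      4 * eu w ^ 2 * eu (v - w) ^ 2 - (eu w ^ 2 + eu (v - w) ^ 2 - eu v ^ 2) ^ 2 := by ring
  rw [h1, eu_sq, eu_sq, eu_sq, Prod.fst_sub, Prod.snd_sub]
  ring

theorem cross_le (w v : ℝ × ℝ) (H b : ℝ) (hb0 : 0 ≤ b)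
    (hb : 2 * eu v * H + H ^ 2 ≤ 4 * b ^ 2) (h : eu w + eu (v - w) ≤ eu v + H) :
    |w.1 * v.2 - w.2 * v.1| ≤ eu v * b := by
  have h1 := heron w v
  have h2 : eu v ≤ eu w + eu (v - w) := by
    have := eu_add w (v - w)
    rwa [add_sub_cancel] at this
  have h3 := eu_nonneg v
  have h4 : (eu w + eu (v - w)) ^ 2 ≤ (eu v + H) ^ 2 := pow_le_pow_left₀ (by linarith) h 2
  have h5 : 0 ≤ (eu w + eu (v - w)) ^ 2 - eu v ^ 2 := by nlinarith
  have h6 : eu v ^ 2 - (eu w - eu (v - w)) ^ 2 ≤ eu v ^ 2 := by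
    nlinarith [sq_nonneg (eu w - eu (v - w))]
  have h7 : ((eu w + eu (v - w)) ^ 2 - eu v ^ 2) * (eu v ^ 2 - (eu w - eu (v - w)) ^ 2) ≤
      4 * b ^ 2 * eu v ^ 2 := by
    calc _ ≤ ((eu w + eu (v - w)) ^ 2 - eu v ^ 2) * eu v ^ 2 :=
          mul_le_mul_of_nonneg_left h6 h5
      _ ≤ _ := mul_le_mul_of_nonneg_right (by nlinarith) (sq_nonneg _)
  apply abs_le_of_sq_le_sq _ (by positivity)
  nlinarith

theorem cnt (S : Finset (ℤ × ℤ)) (M k : ℕ) (h1 : ∀ w ∈ S, |w.1| ≤ M)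
    (h2 : ∀ w ∈ S, ∀ w' ∈ S, w.1 = w'.1 → |w.2 - w'.2| ≤ k) :
    S.card ≤ (2 * k + 1) * (2 * M + 1) := by
  classical
  have e1 : (S.image Prod.fst).card ≤ 2 * M + 1 := by
    have : S.image Prod.fst ⊆ Finset.Icc (-(M : ℤ)) M := by
      intro x hx
      obtain ⟨w, hw, rfl⟩ := Finset.mem_image.1 hx
      exact Finset.mem_Icc.2 (abs_le.1 (h1 w hw))
    refine (Finset.card_le_card this).trans (le_of_eq ?_)
    rw [Int.card_Icc]; omega
  have e2 : ∀ a ∈ S.image Prod.fst, (S.filter (fun x => x.1 = a)).card ≤ 2 * k + 1 := by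
    intro a ha
    obtain ⟨w, hw, rfl⟩ := Finset.mem_image.1 ha
    have h3 : (S.filter (fun x => x.1 = w.1)) ⊆
        (Finset.Icc (w.2 - k) (w.2 + k)).image (fun y => (w.1, y)) := by
      intro z hz
      obtain ⟨hz1, hz2⟩ := Finset.mem_filter.1 hz
      refine Finset.mem_image.2 ⟨z.2, ?_, by rw [← hz2]⟩
      have h4 := abs_le.1 (h2 z hz1 w hw hz2)
      exact Finset.mem_Icc.2 ⟨by linarith [h4.1], by linarith [h4.2]⟩
    refine (Finset.card_le_card h3).trans (Finset.card_image_le.trans (le_of_eq ?_))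
    rw [Int.card_Icc]; omega
  refine (Finset.card_le_mul_card_image (f := Prod.fst) S (2 * k + 1) e2).trans ?_
  exact Nat.mul_le_mul_left _ e1

theorem tube_card (S : Finset (ℤ × ℤ)) (v : ℤ × ℤ) (hv : v ≠ 0) (H b : ℝ) (M k : ℕ)
    (hb0 : 0 ≤ b) (hb : 2 * eu (em v) * H + H ^ 2 ≤ 4 * b ^ 2) (hk : 4 * b ≤ k)
    (hS : ∀ w ∈ S, |w.1| ≤ M ∧ |w.2| ≤ M ∧ eu (em w) + eu (em v - em w) ≤ eu (em v) + H) :
    S.card ≤ (2 * k + 1) * (2 * M + 1) := by
  classical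
  have hc : ∀ w ∈ S, |(w.1 : ℝ) * v.2 - w.2 * v.1| ≤ eu (em v) * b := fun w hw =>
    cross_le (em w) (em v) H b hb0 hb (hS w hw).2.2
  have hL := eu_le (em v)
  have hL' : eu (em v) ≤ |(v.1 : ℝ)| + |(v.2 : ℝ)| := hL
  rcases le_total |(v.2 : ℝ)| |(v.1 : ℝ)| with h | h
  · refine cnt S M k (fun w hw => (hS w hw).1) fun w hw w' hw' he => ?_
    have hv1 : 0 < |(v.1 : ℝ)| := by
      rw [abs_pos]
      intro h0
      rw [h0, abs_zero] at h
      have h3 : (v.2 : ℝ) = 0 := by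
        rw [← abs_eq_zero]; exact le_antisymm h (abs_nonneg _)
      apply hv
      have h4 : v.1 = 0 := by exact_mod_cast h0
      have h5 : v.2 = 0 := by exact_mod_cast h3
      exact Prod.ext h4 h5
    have h1 := hc w hw
    have h2 := hc w' hw'
    have h3 : ((w.2 : ℝ) - w'.2) * v.1 = (w'.1 * v.2 - w'.2 * v.1) - (w.1 * v.2 - w.2 * v.1) := by
      rw [he]; ring
    have h4 : |(w.2 : ℝ) - w'.2| * |(v.1 : ℝ)| ≤ (4 * b) * |(v.1 : ℝ)| := by
      rw [← abs_mul, h3]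
      refine (abs_sub _ _).trans ?_
      nlinarith
    have h5 : |(w.2 : ℝ) - w'.2| ≤ k := (le_of_mul_le_mul_right h4 hv1).trans hk
    exact_mod_cast h5
  · have hcard : S.card = (S.image Prod.swap).card :=
      (Finset.card_image_of_injective S Prod.swap_injective).symm
    rw [hcard]
    refine cnt _ M k ?_ ?_
    · intro w hw
      obtain ⟨z, hz, rfl⟩ := Finset.mem_image.1 hw
      exact (hS z hz).2.1
    · intro x hx x' hx' he
      obtain ⟨w, hw, rfl⟩ := Finset.mem_image.1 hx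
      obtain ⟨w', hw', rfl⟩ := Finset.mem_image.1 hx'
      have he' : w.2 = w'.2 := he
      show |w.1 - w'.1| ≤ (k : ℤ)
      have hv1 : 0 < |(v.2 : ℝ)| := by
        rw [abs_pos]
        intro h0
        rw [h0, abs_zero] at h
        have h3 : (v.1 : ℝ) = 0 := by
          rw [← abs_eq_zero]; exact le_antisymm h (abs_nonneg _)
        apply hv
        have h4 : v.1 = 0 := by exact_mod_cast h3
        have h5 : v.2 = 0 := by exact_mod_cast h0
        exact Prod.ext h4 h5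
      have h1 := hc w hw
      have h2 := hc w' hw'
      have h3 : ((w.1 : ℝ) - w'.1) * v.2 = (w.1 * v.2 - w.2 * v.1) - (w'.1 * v.2 - w'.2 * v.1) := by
        rw [he']; ring
      have h4 : |(w.1 : ℝ) - w'.1| * |(v.2 : ℝ)| ≤ (4 * b) * |(v.2 : ℝ)| := by
        rw [← abs_mul, h3]
        refine (abs_sub _ _).trans ?_
        nlinarith
      have h5 : |(w.1 : ℝ) - w'.1| ≤ k := (le_of_mul_le_mul_right h4 hv1).trans hk
      exact_mod_cast h5

/-- the edges at the points of `S` -/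
def nb (S : Finset (ℤ × ℤ)) : Finset (Sym2 (ℤ × ℤ)) :=
  (S ×ˢ ({(1, 0), (-1, 0), (0, 1), (0, -1)} : Finset (ℤ × ℤ))).image
    (fun q => s(q.1, q.1 + q.2))

theorem nb_card (S : Finset (ℤ × ℤ)) : (nb S).card ≤ S.card * 4 := by
  unfold nb
  refine Finset.card_image_le.trans ?_
  rw [Finset.card_product]
  rfl

theorem nb_mem (S : Finset (ℤ × ℤ)) (a b : ℤ × ℤ) (ha : a ∈ S)
    (hab : |b.1 - a.1| + |b.2 - a.2| = 1) : s(a, b) ∈ nb S := by
  unfold nb
  refine Finset.mem_image.2 ⟨(a, b - a), Finset.mem_product.2 ⟨ha, ?_⟩, ?_⟩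
  · have h3 : b - a = (b.1 - a.1, b.2 - a.2) := rfl
    show b - a ∈ _
    rw [h3]
    obtain ⟨x, hx⟩ : ∃ x, x = b.1 - a.1 := ⟨_, rfl⟩
    obtain ⟨y, hy⟩ : ∃ y, y = b.2 - a.2 := ⟨_, rfl⟩
    rw [← hx, ← hy] at hab ⊢
    simp only [Finset.mem_insert, Finset.mem_singleton, Prod.mk.injEq]
    rcases abs_cases x with ⟨h1, h2⟩ | ⟨h1, h2⟩ <;> rcases abs_cases y with ⟨h5, h6⟩ | ⟨h5, h6⟩ <;>
      omega
  · show s(a, a + (b - a)) = s(a, b)
    rw [add_sub_cancel]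

/-- a path either stays in `S` or leaves it -/
theorem det (x : Sym2 (ℤ × ℤ) → ℝ) (hx : ∀ e, 0 ≤ x e) (S : Finset (ℤ × ℤ)) (δ : ℝ) (hδ : 0 ≤ δ)
    (v : ℤ × ℤ) (a : ℝ) (h0 : 0 ∈ S) (hin : a ≤ (1 + δ) * D x 0 v)
    (hout : ∀ w, w ∉ S → (∃ z ∈ S, |w.1 - z.1| + |w.2 - z.2| = 1) → a ≤ D x 0 w + D x w v) :
    a ≤ D (sc (nb S) (1 + δ) x) 0 v := by
  classical
  have hge : ∀ e, x e ≤ sc (nb S) (1 + δ) x e := by
    intro e
    by_cases he : e ∈ nb S
    · rw [sc_in _ _ _ he]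
      have := hx e
      nlinarith
    · rw [sc_out _ _ _ he]
  have hy : ∀ e, 0 ≤ sc (nb S) (1 + δ) x e := fun e => (hx e).trans (hge e)
  obtain ⟨hne, -, -, -⟩ := cGE _ hy 0 v
  refine le_csInf hne ?_
  rintro s ⟨n, p, p0, pn, padj, rfl⟩
  by_cases hall : ∀ i < n, p i ∈ S
  · have h1 : ∑ i ∈ Finset.range n, sc (nb S) (1 + δ) x s(p i, p (i + 1)) =
        (1 + δ) * ∑ i ∈ Finset.range n, x s(p i, p (i + 1)) := by
      rw [Finset.mul_sum]
      refine Finset.sum_congr rfl fun i hi => ?_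
      rw [Finset.mem_range] at hi
      rw [sc_in _ _ _ (nb_mem S _ _ (hall i hi) (padj i hi))]
    rw [h1]
    refine hin.trans (mul_le_mul_of_nonneg_left ?_ (by linarith))
    obtain ⟨-, hbd, -, -⟩ := cGE x hx 0 v
    exact csInf_le hbd ⟨n, p, p0, pn, padj, rfl⟩
  · push Not at hall
    obtain ⟨i, ⟨hi, hiS⟩, hmin⟩ : ∃ i, (i < n ∧ p i ∉ S) ∧ ∀ j < i, ¬ (j < n ∧ p j ∉ S) := by
      refine ⟨Nat.find hall, Nat.find_spec hall, fun j hj => Nat.find_min hall hj⟩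
    have hi0 : i ≠ 0 := by
      rintro rfl
      rw [p0] at hiS
      exact hiS h0
    obtain ⟨j, rfl⟩ : ∃ j, i = j + 1 := ⟨i - 1, by omega⟩
    have hjS : p j ∈ S := by
      by_contra h
      exact hmin j (by omega) ⟨by omega, h⟩
    refine (hout (p (j + 1)) hiS ⟨p j, hjS, padj j (by omega)⟩).trans ?_
    have h1 : ∑ i ∈ Finset.range n, x s(p i, p (i + 1)) ≤
        ∑ i ∈ Finset.range n, sc (nb S) (1 + δ) x s(p i, p (i + 1)) :=
      Finset.sum_le_sum fun i _ => hge _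
    refine le_trans ?_ h1
    obtain ⟨m, rfl⟩ : ∃ m, n = (j + 1) + m := ⟨n - (j + 1), by omega⟩
    rw [Finset.sum_range_add]
    obtain ⟨-, hbd1, -, -⟩ := cGE x hx 0 (p (j + 1))
    obtain ⟨-, hbd2, -, -⟩ := cGE x hx (p (j + 1)) v
    refine add_le_add ?_ ?_
    · exact csInf_le hbd1 ⟨j + 1, p, p0, rfl, fun i hi => padj i (by omega), rfl⟩
    · refine csInf_le hbd2 ⟨m, fun i => p (j + 1 + i), rfl, pn, fun i hi => ?_, rfl⟩
      exact padj (j + 1 + i) (by omega)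

end Pool.Agent.V7H97.LF
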